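import Pool.Agent.H79.Five.Main

set_option autoImplicit false
set_option linter.all false
set_option maxRecDepth 10000

/-! Composition of separately checked certificates. -/

namespace Pool.Agent.H79.Five

/-- The position `X` has been checked at scope `j`, with the value `N + 1`. -/
def Chk (X j N : ℕ) : Prop := ∃ t : T, F t false X j 0 0 0 = N + 1

/-- An alternative: kind, replies, position, value. -/
structure Al where
  z : ℕ
  D : List ℕ
  c : ℕ
  N : ℕ

noncomputable def FL (l : List Al) : ℕ → ℕ → ℕ → ℕ → ℕ → ℕ :=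
  @List.rec Al (fun _ => ℕ → ℕ → ℕ → ℕ → ℕ → ℕ) (fun X _ I DR acc => fE X I DR acc)
    (fun a _ r X j I DR acc => grd (Nat.beq (Nat.lor X (bits a.D)) a.c)
      (grd (dOk X (bits a.D)) (fA a.z (bits a.D) (fun _ _ _ _ _ _ => a.N + 1) (fun _ => r) X j I DR acc))) l

def AllC : List Al → ℕ → Prop
  | [], _ => True
  | a :: l, j => Chk a.c (@Nat.rec (fun _ => ℕ) j (fun _ _ => j + 1) a.z) a.N ∧ AllC l j

theorem FL_ex (l : List Al) : ∀ X j I DR acc N, AllC l j → FL l X j I DR acc = N + 1 →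
    ∃ t, F t true X j I DR acc = N + 1 := by
  induction l with
  | nil => intro X j I DR acc N _ h; exact ⟨.e, h⟩
  | cons a l ih =>
    intro X j I DR acc N hA h
    obtain ⟨z, D, c, M⟩ := a
    obtain ⟨⟨t, ht⟩, hA2⟩ := hA
    obtain ⟨h1, h2⟩ := grd_eq (b := Nat.beq (Nat.lor X (bits D)) c) h
    have h1 := Nat.eq_of_beq_eq_true h1
    obtain ⟨h3, h4⟩ := grd_eq (b := dOk X (bits D)) h2
    subst h1
    cases z with
    | zero =>
      change F t false (Nat.lor X (bits D)) j 0 0 0 = M + 1 at ht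
      change FL l X j I (Nat.lor DR (bits D)) (Nat.lor acc (Nat.shiftRight M 64)) = N + 1 at h4
      obtain ⟨tn, htn⟩ := ih _ _ _ _ _ _ hA2 h4
      refine ⟨.a 0 D t tn, ?_⟩
      change grd (dOk X (bits D)) (bnd (F t false (Nat.lor X (bits D)) j 0 0 0) fun p =>
        F tn true X j I (Nat.lor DR (bits D)) (Nat.lor acc (Nat.shiftRight p 64))) = N + 1
      rw [h3, ht]
      exact htn
    | succ z =>
      change F t false (Nat.lor X (bits D)) (j + 1) 0 0 0 = M + 1 at ht
      obtain ⟨h5, h6⟩ := grd_eq (b := Nat.ble j 2) h4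
      change FL l X j (Nat.land I (Nat.xor (Nat.shiftRight M (Nat.add (nat_lit 64) (Nat.mul (nat_lit 6144) j)))
          (Nat.land (Nat.shiftRight M (Nat.add (nat_lit 64) (Nat.mul (nat_lit 6144) j))) (bits D))))
        DR (Nat.lor acc (Nat.land (Nat.shiftRight M (nat_lit 64)) (mask j))) = N + 1 at h6
      obtain ⟨tn, htn⟩ := ih _ _ _ _ _ _ hA2 h6
      refine ⟨.a (z + 1) D t tn, ?_⟩
      change grd (dOk X (bits D)) (grd (Nat.ble j 2) (bnd (F t false (Nat.lor X (bits D)) (j + 1) 0 0 0) fun p =>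
        F tn true X j (Nat.land I (Nat.xor (Nat.shiftRight p (Nat.add (nat_lit 64) (Nat.mul (nat_lit 6144) j)))
          (Nat.land (Nat.shiftRight p (Nat.add (nat_lit 64) (Nat.mul (nat_lit 6144) j))) (bits D))))
        DR (Nat.lor acc (Nat.land (Nat.shiftRight p (nat_lit 64)) (mask j))))) = N + 1
      rw [h3, h5, ht]
      exact htn

/-- A quiet move, from the values of its alternatives. -/
theorem Chk.q {X j N : ℕ} (m : ℕ) (l : List Al)
    (h : grd (fre X m) (fQ m (fun _ => FL l) j (plA X m)) = N + 1) (hl : AllC l j) : Chk X j N := by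
  obtain ⟨h1, h2⟩ := grd_eq h
  obtain ⟨h3, h4⟩ := grd_eq (b := saf (plA X m)) h2
  obtain ⟨t, ht⟩ := FL_ex l _ _ _ _ _ _ hl h4
  refine ⟨.q m t, ?_⟩
  change grd (fre X m) (grd (saf (plA X m)) (F t true (plA X m) j ones 0 (Nat.lor (nd (plA X m) j) (Nat.mul (bit m) (rep j))))) = N + 1
  rw [h1, h3]
  exact ht

/-- A four, from the value after the forced reply. -/
theorem Chk.r {X j N : ℕ} (m w c Y M : ℕ)
    (h : grd (Nat.beq (Nat.lor (plA X m) (bit c)) Y) (grd (fre X m) (fR m w c (fun _ _ _ _ _ _ => M + 1) X j (plA X m))) = N + 1)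
    (hk : Chk Y j M) : Chk X j N := by
  obtain ⟨h0, h1⟩ := grd_eq h
  have h0 := Nat.eq_of_beq_eq_true h0
  subst h0
  obtain ⟨h1, h2⟩ := grd_eq h1
  obtain ⟨t, ht⟩ := hk
  refine ⟨.r m w c t, ?_⟩
  change grd (fre X m) (fR m w c (F t) X j (plA X m)) = N + 1
  rw [h1]
  change grd (Bool.and (Bool.and (fiv (plA X m) w c) (fre (plA X m) c)) (saf (plA X m)))
    (bnd (F t false (Nat.lor (plA X m) (bit c)) j 0 0 0) fun p =>
      (res X (Nat.lor (Nat.shiftRight p 64) (Nat.lor (nd (plA X m) j) (Nat.mul (Nat.lor (bit m) (bit c)) (rep j)))))) = N + 1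
  rw [ht]
  exact h2

theorem Chk.win {X j N : ℕ} (h : Chk X j N) {A B E U R : Finset Cell} (hX : Rep X A B) (hj : j ≤ 3)
    (hC : Cov j (N >>> 64) A E U) (hR : R ⊆ B ∪ U) (hdis : Disjoint R (A ∪ E)) : ∃ n, W n (A ∪ E) R := by
  obtain ⟨t, ht⟩ := h
  exact ⟨_, (sound t).1 X j N 0 0 0 A B hX hj ht E U R hC hR hdis⟩

end Pool.Agent.H79.Five
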