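import Pool.Agent.H79.Five.Main

set_option autoImplicit false
set_option linter.all false
set_option maxRecDepth 10000

/-! Semantic composition of certificates. -/

namespace Pool.Agent.H79.Five

/-- First, to move, wins from the position `X`. -/
def S (X : ℕ) : Prop := ∀ A B, Rep X A B → ∃ n, W n A B

/-- First, to move, wins from the position `X` with one more stone of Second outside `Z`. -/
def NZ (X Z : ℕ) : Prop := ∀ A B, Rep X A B → ∃ n, ∀ s, s ∉ A → s ∉ cells Z → W n A (insert s B)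

/-- The value of the certificate `t` at scope `1` has its zone inside `Z`. -/
noncomputable def z1 (t : T) (X Z : ℕ) : ℕ :=
  bnd (F t false X 1 0 0 0) fun p => grd (Nat.beq (Nat.lor (Nat.shiftRight p 64) Z) Z) 1

theorem Cov.zero (P : ℕ) (A E : Finset Cell) : Cov 0 P A E ∅ where
  win a d _ _ _ k hk _ := by
    have : cnt ∅ a d = 0 := by unfold cnt; simp
    omega
  cel c hc := by simp at hc

theorem S.of {X : ℕ} (t : T) (h : Nat.beq (F t false X 0 0 0 0) 0 = false) : S X := by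
  intro A B hX
  have : ∃ p, F t false X 0 0 0 0 = p + 1 := by
    rcases hF : F t false X 0 0 0 0 with _ | p
    · rw [hF] at h; exact absurd h (by decide)
    · exact ⟨p, rfl⟩
  obtain ⟨p, hp⟩ := this
  have := (sound t).1 X 0 p 0 0 0 A B hX (by norm_num) hp ∅ ∅ B (Cov.zero _ _ _) (by simp) (by simpa using hX.dis.symm)
  rw [Finset.union_empty] at this
  exact ⟨_, this⟩

theorem NZ.of {X Z : ℕ} (t : T) (h : z1 t X Z = 1) : NZ X Z := by
  intro A B hX
  obtain ⟨p, hp, h1⟩ := bnd_eq (N := 0) h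
  obtain ⟨h2, -⟩ := grd_eq (N := 0) h1
  have h2 := Nat.eq_of_beq_eq_true h2
  change (p >>> 64) ||| Z = Z at h2
  refine ⟨ht t, fun s hsA hsZ => ?_⟩
  have hz : ¬ zn (p >>> 64) 0 s := by
    intro hz
    apply hsZ
    rw [mem_cells]
    refine ⟨hz.1, ?_⟩
    have := hz.2
    rw [Nat.mul_zero, Nat.zero_add] at this
    rw [← h2, Nat.testBit_or, this]; rfl
  have hC : Cov 1 (p >>> 64) A ∅ (insert s ∅) := (Cov.zero (p >>> 64) A ∅).step (fun _ _ _ h => h) hz
  have := (sound t).1 X 1 p 0 0 0 A B hX (by norm_num) hp ∅ _ (insert s B) hC ?_ ?_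
  · rwa [Finset.union_empty] at this
  · intro x hx
    rcases Finset.mem_insert.1 hx with h | h
    · exact Finset.mem_union_right _ (h ▸ Finset.mem_insert_self _ _)
    · exact Finset.mem_union_left _ h
  · rw [Finset.union_empty, Finset.disjoint_insert_left]
    exact ⟨hsA, hX.dis.symm⟩

theorem NZ.mono {X Z Z' : ℕ} (h : NZ X Z) (hZ : ∀ c, c ∈ cells Z → c ∈ cells Z') : NZ X Z' := by
  intro A B hX
  obtain ⟨n, hn⟩ := h A B hX
  exact ⟨n, fun s hs hz => hn s hs fun hc => hz (hZ s hc)⟩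

/-- All of `zs` are zones at `X`. -/
def AZ (X : ℕ) : List ℕ → Prop
  | [] => True
  | z :: l => NZ X z ∧ AZ X l

/-- All the listed positions are won. -/
def AS : List (List ℕ × ℕ) → Prop
  | [] => True
  | a :: l => S a.2 ∧ AS l

def andl (zs : List ℕ) : ℕ := @List.rec ℕ (fun _ => ℕ) ones (fun z _ r => Nat.land z r) zs

def orl (ds : List (List ℕ × ℕ)) : ℕ := @List.rec (List ℕ × ℕ) (fun _ => ℕ) (nat_lit 0) (fun d _ r => Nat.lor (bits d.1) r) ds

def dk (X : ℕ) (ds : List (List ℕ × ℕ)) : Bool :=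
  @List.rec (List ℕ × ℕ) (fun _ => Bool) true
    (fun d _ r => Bool.and (Bool.and (dOk X (bits d.1)) (Nat.beq (Nat.lor X (bits d.1)) d.2)) r) ds

/-- The replies outside all the zones `z :: zs`, and the replies in the sets `ds`, are all the replies. -/
def qk (X m X1 z : ℕ) (zs : List ℕ) (ds : List (List ℕ × ℕ)) : Bool :=
  Bool.and (Bool.and (fre X m) (Nat.beq (plA X m) X1)) (Bool.and (Bool.and (saf X1) (dk X1 ds))
    (Nat.beq (Nat.lor (Nat.land (Nat.land z (andl zs)) (emp X1)) (orl ds)) (orl ds)))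

theorem safe0 {X : ℕ} {A B : Finset Cell} (h : Rep X A B) (hs : saf X = true) {s : Cell} (hsA : s ∉ A) :
    ¬ Five (insert s B) :=
  safety (j := 0) (P := 0) (E := ∅) (U := ∅) h (by norm_num) hs (fun i hi => by omega) (Cov.zero _ _ _) (by simp)
    (by simpa using h.dis.symm) (by simpa using hsA)

theorem AZ.get {X : ℕ} {zs : List ℕ} (h : AZ X zs) {A B : Finset Cell} (hX : Rep X A B) :
    ∃ n, ∀ s, s ∉ A → s ∉ B → (W n A (insert s B) ∨ (Inb s → (andl zs).testBit (6 * ix s) = true)) := by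
  induction zs with
  | nil =>
    refine ⟨0, fun s _ _ => Or.inr fun hs => ones_tb (ix_lt hs)⟩
  | cons z l ih =>
    obtain ⟨n, hn⟩ := ih h.2
    obtain ⟨n', hn'⟩ := h.1 A B hX
    refine ⟨max n n', fun s hs hsB => ?_⟩
    by_cases hz : s ∈ cells z
    · rcases hn s hs hsB with h1 | h1
      · exact Or.inl (h1.le (le_max_left _ _))
      · refine Or.inr fun hi => ?_
        change (z &&& andl l).testBit (6 * ix s) = true
        rw [Nat.testBit_and, h1 hi, (mem_cells.1 hz).2]; rfl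
    · exact Or.inl ((hn' s hs hz).le (le_max_right _ _))

theorem AS.get {X : ℕ} {A B : Finset Cell} (hX : Rep X A B) {ds : List (List ℕ × ℕ)} (hd : dk X ds = true) (h : AS ds) :
    ∃ n, ∀ s, Inb s → (orl ds).testBit (6 * ix s) = true → W n A (insert s B) := by
  induction ds with
  | nil =>
    refine ⟨0, fun s _ hs => ?_⟩
    change (0 : ℕ).testBit _ = true at hs
    rw [Nat.zero_testBit] at hs
    exact absurd hs (by simp)
  | cons d l ih =>
    change Bool.and (Bool.and (dOk X (bits d.1)) (Nat.beq (Nat.lor X (bits d.1)) d.2)) (dk X l) = true at hd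
    obtain ⟨h1, h2⟩ := andb hd
    obtain ⟨h3, h4⟩ := andb h1
    have h4 := Nat.eq_of_beq_eq_true h4
    obtain ⟨n, hn⟩ := ih h2 h.2
    obtain ⟨hX2, hA2, hB2⟩ := hX.lor (dg01_bits d.1) h3
    have hS := h.1
    rw [← h4] at hS
    obtain ⟨n', hn'⟩ := hS _ _ hX2
    refine ⟨max n n', fun s hs hb => ?_⟩
    change (bits d.1 ||| orl l).testBit (6 * ix s) = true at hb
    rw [Nat.testBit_or] at hb
    rcases Bool.or_eq_true _ _ ▸ hb with hb | hb
    · apply (hn'.anti _).le (le_max_right _ _)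
      intro x hx
      rcases Finset.mem_insert.1 hx with h5 | h5
      · exact Finset.mem_union_right _ (h5 ▸ mem_cells.2 ⟨hs, hb⟩)
      · exact Finset.mem_union_left _ h5
    · exact (hn s hs hb).le (le_max_left _ _)

/-- A quiet move of First: the replies outside one of the zones, and the replies in the sets, all lose. -/
theorem S.q {X : ℕ} (m X1 z : ℕ) (zs : List ℕ) (ds : List (List ℕ × ℕ)) (h : qk X m X1 z zs ds = true)
    (hz : AZ X1 (z :: zs)) (hd : AS ds) : S X := by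
  obtain ⟨h1, h2⟩ := andb h
  obtain ⟨hf, h3⟩ := andb h1
  obtain ⟨h4, h5⟩ := andb h2
  obtain ⟨hs, h6⟩ := andb h4
  have h3 := Nat.eq_of_beq_eq_true h3
  have h5 := Nat.eq_of_beq_eq_true h5
  subst h3
  intro A B hX
  obtain ⟨hm, hmi, hmA, hmB⟩ := fre_spec hX hf
  have hX1 := hX.plA hf
  obtain ⟨n1, hn1⟩ := hz.get hX1
  obtain ⟨n3, hn3⟩ := hz.1 _ _ hX1
  obtain ⟨n2, hn2⟩ := hd.get hX1 h6
  refine ⟨max n3 (max n1 n2) + 1, cl m, hmA, hmB, Or.inr fun s hsA hsB => ⟨safe0 hX1 hs hsA, ?_⟩⟩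
  by_cases hi : Inb s
  · rcases hn1 s hsA hsB with h7 | h7
    · exact h7.le ((le_max_left _ _).trans (le_max_right _ _))
    · apply (hn2 s hi _).le ((le_max_right _ _).trans (le_max_right _ _))
      have h8 := h7 hi
      change (z &&& andl zs).testBit (6 * ix s) = true at h8
      have h9 : (emp (plA X m)).testBit (6 * ix s) = true := by
        apply emp_spec (ix_lt hi)
        rw [hX1.dig _ (ix_lt hi), cl_ix hi, if_neg hsA, if_neg hsB]
      change ((z &&& andl zs) &&& emp (plA X m)) ||| orl ds = orl ds at h5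
      rw [← h5, Nat.testBit_or, Nat.testBit_and, h8, h9]; rfl
  · apply (hn3 s hsA _).le (le_max_left _ _)
    intro hc
    exact hi (mem_cells.1 hc).1

/-- A four of First with the forced reply `c`. -/
theorem S.r {X : ℕ} (m w c Y : ℕ) (h : Bool.and (Bool.and (fre X m) (fiv (plA X m) w c))
    (Bool.and (saf (plA X m)) (Bool.and (fre (plA X m) c) (Nat.beq (Nat.lor (plA X m) (bit c)) Y))) = true) (hY : S Y) : S X := by
  obtain ⟨h1, h2⟩ := andb h
  obtain ⟨hf, h3⟩ := andb h1
  obtain ⟨hs, h4⟩ := andb h2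
  obtain ⟨h5, h6⟩ := andb h4
  have h6 := Nat.eq_of_beq_eq_true h6
  subst h6
  intro A B hX
  obtain ⟨hm, hmi, hmA, hmB⟩ := fre_spec hX hf
  have hX1 := hX.plA hf
  have hX2 := hX1.plB h5
  obtain ⟨hc, hc4, hc5⟩ := fiv_spec hX1 h3
  obtain ⟨hcA, hcB⟩ := hX1.four hc hc4
  obtain ⟨n, hn⟩ := hY _ _ hX2
  refine ⟨max n 1 + 1, cl m, hmA, hmB, Or.inr fun s hsA hsB => ⟨safe0 hX1 hs hsA, ?_⟩⟩
  by_cases hsc : s = cl c
  · exact hsc ▸ hn.le (le_max_left _ _)
  · have := four_win (n := 0) (E := ∅) hc5 hcA hcB hsc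
    rw [Finset.union_empty] at this
    exact this.le (le_max_right _ _)

/-- A double four. -/
theorem S.d {X : ℕ} (m w c w2 c2 : ℕ) (h : Bool.and (Bool.and (fre X m) (fiv (plA X m) w c))
    (Bool.and (saf (plA X m)) (Bool.and (fiv (plA X m) w2 c2) (Bool.not (Nat.beq c c2)))) = true) : S X := by
  apply S.of (.d m w c w2 c2)
  obtain ⟨h1, h2⟩ := andb h
  obtain ⟨hf, h3⟩ := andb h1
  obtain ⟨hs, h4⟩ := andb h2
  obtain ⟨h5, h6⟩ := andb h4
  change Nat.beq (grd (fre X m) (fD m w c w2 c2 X 0 (plA X m))) 0 = false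
  unfold fD
  rw [hf, h3, hs, h5, h6]
  rfl

end Pool.Agent.H79.Five
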