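import Mathlib

set_option autoImplicit false

/-! Base-64 digits. -/

namespace Pool.Agent.H79.Five

/-- The `i`-th base-64 digit. -/
def dg (N i : ℕ) : ℕ := N / 64 ^ i % 64

theorem dg_lt (N i : ℕ) : dg N i < 64 := Nat.mod_lt _ (by norm_num)

theorem testBit_dg (N i r : ℕ) (hr : r < 6) : (dg N i).testBit r = N.testBit (6 * i + r) := by
  unfold dg
  rw [show (64 : ℕ) ^ i = 2 ^ (6 * i) by rw [pow_mul]; norm_num, show (64 : ℕ) = 2 ^ 6 by norm_num,
    Nat.testBit_mod_two_pow, Nat.testBit_div_two_pow]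
  simp [hr, Nat.add_comm]

theorem dg_ext {M N : ℕ} (h : ∀ i, dg M i = dg N i) : M = N := by
  apply Nat.eq_of_testBit_eq
  intro i
  have h1 := testBit_dg M (i / 6) (i % 6) (Nat.mod_lt _ (by norm_num))
  have h2 := testBit_dg N (i / 6) (i % 6) (Nat.mod_lt _ (by norm_num))
  rw [Nat.div_add_mod] at h1 h2
  rw [← h1, ← h2, h]

theorem dg_eq_of_testBit {M i : ℕ} {d : ℕ} (hd : d < 64)
    (h : ∀ r < 6, M.testBit (6 * i + r) = d.testBit r) : dg M i = d := by
  apply Nat.eq_of_testBit_eq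
  intro r
  by_cases hr : r < 6
  · rw [testBit_dg _ _ _ hr, h r hr]
  · rw [Nat.testBit_lt_two_pow, Nat.testBit_lt_two_pow]
    · exact lt_of_lt_of_le hd (le_trans (by norm_num) (Nat.pow_le_pow_right (n := 2) (by norm_num) (not_lt.1 hr)))
    · exact lt_of_lt_of_le (dg_lt _ _) (le_trans (by norm_num) (Nat.pow_le_pow_right (n := 2) (by norm_num) (not_lt.1 hr)))

theorem dg_land (M N i : ℕ) : dg (M &&& N) i = dg M i &&& dg N i := by
  apply dg_eq_of_testBit (lt_of_le_of_lt Nat.and_le_left (dg_lt _ _))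
  intro r hr
  rw [Nat.testBit_and, Nat.testBit_and, testBit_dg _ _ _ hr, testBit_dg _ _ _ hr]

theorem dg_lor (M N i : ℕ) : dg (M ||| N) i = dg M i ||| dg N i := by
  apply dg_eq_of_testBit (Nat.or_lt_two_pow (n := 6) (dg_lt _ _) (dg_lt _ _))
  intro r hr
  rw [Nat.testBit_or, Nat.testBit_or, testBit_dg _ _ _ hr, testBit_dg _ _ _ hr]

theorem dg_xor (M N i : ℕ) : dg (M ^^^ N) i = dg M i ^^^ dg N i := by
  apply dg_eq_of_testBit (Nat.xor_lt_two_pow (n := 6) (dg_lt _ _) (dg_lt _ _))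
  intro r hr
  rw [Nat.testBit_xor, Nat.testBit_xor, testBit_dg _ _ _ hr, testBit_dg _ _ _ hr]

theorem dg_add_aux {M N : ℕ} (h : ∀ i, dg M i + dg N i < 64) (i : ℕ) :
    (M + N) / 64 ^ i = M / 64 ^ i + N / 64 ^ i := by
  induction i with
  | zero => simp
  | succ i ih =>
    have := h i
    unfold dg at this
    rw [pow_succ, ← Nat.div_div_eq_div_mul, ← Nat.div_div_eq_div_mul, ← Nat.div_div_eq_div_mul, ih]
    omega

theorem dg_add {M N : ℕ} (h : ∀ i, dg M i + dg N i < 64) (i : ℕ) : dg (M + N) i = dg M i + dg N i := by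
  have := h i
  unfold dg at this ⊢
  rw [dg_add_aux h]
  omega

theorem dg_shl (N k i : ℕ) : dg (N * 64 ^ k) i = if k ≤ i then dg N (i - k) else 0 := by
  unfold dg
  split_ifs with h
  · obtain ⟨j, rfl⟩ := Nat.exists_eq_add_of_le h
    rw [pow_add, Nat.mul_comm (64 ^ k), Nat.mul_div_mul_right _ _ (by positivity)]
    simp
  · obtain ⟨j, hj⟩ := Nat.exists_eq_add_of_lt (not_le.1 h)
    rw [hj, show N * 64 ^ (i + j + 1) = (N * 64 ^ j * 64) * 64 ^ i by ring, Nat.mul_div_cancel _ (by positivity)]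
    omega

theorem dg_shr (N k i : ℕ) : dg (N / 64 ^ k) i = dg N (i + k) := by
  unfold dg
  rw [Nat.div_div_eq_div_mul, ← pow_add, Nat.add_comm k i]

theorem dg_zero (i : ℕ) : dg 0 i = 0 := by simp [dg]

theorem dg_small {d : ℕ} (hd : d < 64) (i : ℕ) : dg d i = if i = 0 then d else 0 := by
  unfold dg
  split_ifs with h
  · subst h; simp; omega
  · rw [Nat.div_eq_of_lt]
    exact lt_of_lt_of_le hd (by
        calc 64 = 64 ^ 1 := by norm_num
          _ ≤ 64 ^ i := Nat.pow_le_pow_right (by norm_num) (by omega))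

theorem dg_mulpow {d : ℕ} (hd : d < 64) (c i : ℕ) : dg (d * 64 ^ c) i = if i = c then d else 0 := by
  rw [dg_shl]
  split_ifs with h1 h2 h2
  · subst h2; rw [dg_small hd, Nat.sub_self, if_pos rfl]
  · rw [dg_small hd, if_neg (by omega)]
  · omega
  · rfl

/-- The number with `n` digits `1`. -/
def rp : ℕ → ℕ
  | 0 => 0
  | n + 1 => rp n + 64 ^ n

theorem rp_eq (n : ℕ) : 63 * rp n + 1 = 64 ^ n := by
  induction n with
  | zero => rfl
  | succ n ih => rw [rp, pow_succ]; omega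

theorem dg_mul_rp {d : ℕ} (hd : d < 64) (n i : ℕ) : dg (d * rp n) i = if i < n then d else 0 := by
  induction n generalizing i with
  | zero => simp [rp, dg_zero]
  | succ n ih =>
    rw [rp, mul_add, dg_add, ih, dg_mulpow hd]
    · split_ifs <;> omega
    · intro i
      rw [ih, dg_mulpow hd]
      split_ifs <;> omega

/-- Digits of a product with a window polynomial. -/
theorem dg_win {X : ℕ} {B : ℕ} (hB : 5 * B < 64) (hX : ∀ i, dg X i ≤ B) (δ : ℕ) (i : ℕ) :
    dg (X * (1 + 64 ^ δ + 64 ^ (2 * δ) + 64 ^ (3 * δ) + 64 ^ (4 * δ))) i =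
      dg X i + (if δ ≤ i then dg X (i - δ) else 0) + (if 2 * δ ≤ i then dg X (i - 2 * δ) else 0)
        + (if 3 * δ ≤ i then dg X (i - 3 * δ) else 0) + (if 4 * δ ≤ i then dg X (i - 4 * δ) else 0) := by
  have hs : ∀ k i, dg (X * 64 ^ k) i ≤ B := by
    intro k i; rw [dg_shl]; split_ifs
    · exact hX _
    · exact Nat.zero_le _
  have h1 : ∀ i, dg (X + X * 64 ^ δ) i = dg X i + dg (X * 64 ^ δ) i :=
    fun i => dg_add (fun i => by have := hX i; have := hs δ i; omega) i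
  have h2 : ∀ i, dg (X + X * 64 ^ δ + X * 64 ^ (2 * δ)) i = dg X i + dg (X * 64 ^ δ) i + dg (X * 64 ^ (2 * δ)) i := by
    intro i; rw [dg_add, h1]
    intro i; rw [h1]; have := hX i; have := hs δ i; have := hs (2 * δ) i; omega
  have h3 : ∀ i, dg (X + X * 64 ^ δ + X * 64 ^ (2 * δ) + X * 64 ^ (3 * δ)) i =
      dg X i + dg (X * 64 ^ δ) i + dg (X * 64 ^ (2 * δ)) i + dg (X * 64 ^ (3 * δ)) i := by
    intro i; rw [dg_add, h2]
    intro i; rw [h2]; have := hX i; have := hs δ i; have := hs (2 * δ) i; have := hs (3 * δ) i; omega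
  have h4 : dg (X + X * 64 ^ δ + X * 64 ^ (2 * δ) + X * 64 ^ (3 * δ) + X * 64 ^ (4 * δ)) i =
      dg X i + dg (X * 64 ^ δ) i + dg (X * 64 ^ (2 * δ)) i + dg (X * 64 ^ (3 * δ)) i + dg (X * 64 ^ (4 * δ)) i := by
    rw [dg_add, h3]
    intro i; rw [h3]; have := hX i; have := hs δ i; have := hs (2 * δ) i; have := hs (3 * δ) i
    have := hs (4 * δ) i; omega
  rw [show X * (1 + 64 ^ δ + 64 ^ (2 * δ) + 64 ^ (3 * δ) + 64 ^ (4 * δ)) =
    X + X * 64 ^ δ + X * 64 ^ (2 * δ) + X * 64 ^ (3 * δ) + X * 64 ^ (4 * δ) by ring, h4]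
  simp only [dg_shl]

/-- Bit 5 of every digit, shifted down. -/
theorem dg_shr5 {N : ℕ} (h : ∀ i, dg N i = 0 ∨ dg N i = 32) (i : ℕ) : dg (N / 2 ^ 5) i = if dg N i = 32 then 1 else 0 := by
  apply dg_eq_of_testBit (by split_ifs <;> norm_num)
  intro r hr
  rw [Nat.testBit_div_two_pow]
  rcases Nat.eq_zero_or_pos r with h0 | h0
  · subst h0
    rw [show 6 * i + 0 + 5 = 6 * i + 5 by ring, ← testBit_dg _ _ _ (by norm_num : 5 < 6)]
    rcases h i with h | h <;> rw [h] <;> decide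
  · rw [show 6 * i + r + 5 = 6 * (i + 1) + (r - 1) by omega, ← testBit_dg _ _ _ (by omega)]
    have h1 : (dg N (i + 1)).testBit (r - 1) = false := by
      rcases h (i + 1) with h | h <;> rw [h]
      · simp
      · have : r - 1 < 5 := by omega
        interval_cases (r - 1) <;> decide
    rw [h1]
    have : r < 6 := hr
    split_ifs
    · interval_cases r <;> simp_all <;> decide
    · simp

end Pool.Agent.H79.Five
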