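import Mathlib

set_option autoImplicit false

/-! The game: First wins from a position within `n` moves. -/

namespace Pool.Agent.H79.Five

abbrev Cell := ℤ × ℤ

/-- `S` contains five in a row. -/
def Five (S : Finset Cell) : Prop :=
  ∃ a d : Cell, (d = (1, 0) ∨ d = (0, 1) ∨ d = (1, 1) ∨ d = (1, -1)) ∧
    ∀ k : ℕ, k < 5 → a + (k : ℤ) • d ∈ S

theorem Five.mono {S T : Finset Cell} (h : S ⊆ T) (hS : Five S) : Five T := by
  obtain ⟨a, d, hd, hk⟩ := hS
  exact ⟨a, d, hd, fun k hk' => h (hk k hk')⟩

/-- First, to move, wins within `n` moves from the position `(A, B)`. -/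
def W : ℕ → Finset Cell → Finset Cell → Prop
  | 0, _, _ => False
  | n + 1, A, B => ∃ m, m ∉ A ∧ m ∉ B ∧ (Five (insert m A) ∨
      ∀ s, s ∉ insert m A → s ∉ B → ¬ Five (insert s B) ∧ W n (insert m A) (insert s B))

theorem exists_free (A B : Finset Cell) : ∃ m, m ∉ A ∧ m ∉ B := by
  obtain ⟨m, hm⟩ := Infinite.exists_notMem_finset (A ∪ B)
  exact ⟨m, fun h => hm (Finset.mem_union_left _ h), fun h => hm (Finset.mem_union_right _ h)⟩

theorem W.succ {n : ℕ} : ∀ {A B : Finset Cell}, W n A B → W (n + 1) A B := by
  induction n with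
  | zero => intro A B h; exact h.elim
  | succ n ih =>
    intro A B h
    obtain ⟨m, hA, hB, h⟩ := h
    refine ⟨m, hA, hB, h.imp id fun h s hs hs' => ⟨(h s hs hs').1, ih (h s hs hs').2⟩⟩

theorem W.le {n n' : ℕ} (hn : n ≤ n') {A B : Finset Cell} (h : W n A B) : W n' A B := by
  induction hn with
  | refl => exact h
  | step _ ih => exact ih.succ

theorem W.of_five {n : ℕ} {A B : Finset Cell} (h : Five A) : W (n + 1) A B := by
  obtain ⟨m, hA, hB⟩ := exists_free A B
  exact ⟨m, hA, hB, Or.inl (h.mono (Finset.subset_insert _ _))⟩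

/-- An extra stone of First does not hurt. -/
theorem W.addA {n : ℕ} : ∀ {A B : Finset Cell} {x : Cell}, W n A B → x ∉ B → W n (insert x A) B := by
  induction n with
  | zero => intro A B x h _; exact h.elim
  | succ n ih =>
    intro A B x h hx
    obtain ⟨m, hA, hB, h⟩ := h
    by_cases hm : m = x
    · subst hm
      obtain ⟨y, hyA, hyB⟩ := exists_free (insert m A) B
      refine ⟨y, hyA, hyB, ?_⟩
      rcases h with h | h
      · exact Or.inl (h.mono (Finset.subset_insert _ _))
      · right
        intro s hs hs'
        have hs1 : s ∉ insert m A := fun h => hs (Finset.mem_insert_of_mem h)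
        refine ⟨(h s hs1 hs').1, ih (h s hs1 hs').2 ?_⟩
        intro hy
        rcases Finset.mem_insert.1 hy with h | h
        · exact hs (h ▸ Finset.mem_insert_self _ _)
        · exact hyB h
    · refine ⟨m, ?_, hB, ?_⟩
      · intro h
        rcases Finset.mem_insert.1 h with h | h
        · exact hm h
        · exact hA h
      rcases h with h | h
      · exact Or.inl (h.mono (by
          intro z hz
          rcases Finset.mem_insert.1 hz with h | h
          · exact h ▸ Finset.mem_insert_self _ _
          · exact Finset.mem_insert_of_mem (Finset.mem_insert_of_mem h)))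
      · right
        intro s hs hs'
        rw [Finset.insert_comm] at hs ⊢
        have hs1 : s ∉ insert m A := fun h => hs (Finset.mem_insert_of_mem h)
        refine ⟨(h s hs1 hs').1, ih (h s hs1 hs').2 ?_⟩
        intro hy
        rcases Finset.mem_insert.1 hy with h | h
        · exact hs (h ▸ Finset.mem_insert_self _ _)
        · exact hx h

/-- Fewer stones of Second do not hurt. -/
theorem W.anti {n : ℕ} : ∀ {A B B' : Finset Cell}, W n A B → B' ⊆ B → W n A B' := by
  induction n with
  | zero => intro A B B' h _; exact h.elim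
  | succ n ih =>
    intro A B B' h hB'
    obtain ⟨m, hA, hB, h⟩ := h
    refine ⟨m, hA, fun h => hB (hB' h), h.imp id fun h s hs hs' => ?_⟩
    by_cases hsB : s ∈ B
    · obtain ⟨y, hyA, hyB⟩ := exists_free (insert m A) B
      have hsub : insert s B' ⊆ insert y B := by
        intro z hz
        rcases Finset.mem_insert.1 hz with h | h
        · exact Finset.mem_insert_of_mem (h ▸ hsB)
        · exact Finset.mem_insert_of_mem (hB' h)
      exact ⟨fun h5 => (h y hyA hyB).1 (h5.mono hsub), ih (h y hyA hyB).2 hsub⟩
    · have hsub : insert s B' ⊆ insert s B := Finset.insert_subset_insert _ hB'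
      exact ⟨fun h5 => (h s hs hsB).1 (h5.mono hsub), ih (h s hs hsB).2 hsub⟩

/-- Transport by a symmetry of the board. -/
theorem W.map {n : ℕ} (e : Cell ≃ Cell) (he : ∀ S : Finset Cell, Five (S.map e.toEmbedding) ↔ Five S) :
    ∀ {A B : Finset Cell}, W n A B → W n (A.map e.toEmbedding) (B.map e.toEmbedding) := by
  induction n with
  | zero => intro A B h; exact h.elim
  | succ n ih =>
    intro A B h
    obtain ⟨m, hA, hB, h⟩ := h
    have hins : ∀ (x : Cell) (S : Finset Cell), insert (e x) (S.map e.toEmbedding) = (insert x S).map e.toEmbedding := by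
      intro x S; simp [Finset.map_insert]
    refine ⟨e m, ?_, ?_, ?_⟩
    · simpa using hA
    · simpa using hB
    · rw [hins]
      rcases h with h | h
      · exact Or.inl ((he _).2 h)
      · right
        intro s hs hs'
        obtain ⟨s, rfl⟩ := e.surjective s
        rw [hins]
        have h1 : s ∉ insert m A := by
          intro h; exact hs (by simpa using h)
        have h2 : s ∉ B := by simpa using hs'
        exact ⟨fun h5 => (h s h1 h2).1 ((he _).1 h5), ih (h s h1 h2).2⟩

end Pool.Agent.H79.Five
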