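import Pool.Agent.H79.Five.Defs
import Pool.Agent.H79.Five.Digits
import Pool.Agent.H79.Five.Game

set_option autoImplicit false

/-! Positions as numbers. -/

namespace Pool.Agent.H79.Five

/-- The cell with index `n`. -/
def cl (n : ℕ) : Cell := ((n % 32 : ℕ), (n / 32 : ℕ))

/-- The index of a cell of the board. -/
def ix (c : Cell) : ℕ := (c.1 + 32 * c.2).toNat

def Inb (c : Cell) : Prop := 0 ≤ c.1 ∧ c.1 < 32 ∧ 0 ≤ c.2 ∧ c.2 < 32
def Inr (c : Cell) : Prop := 4 ≤ c.1 ∧ c.1 < 28 ∧ 4 ≤ c.2 ∧ c.2 < 28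

instance (c : Cell) : Decidable (Inb c) := by unfold Inb; infer_instance
instance (c : Cell) : Decidable (Inr c) := by unfold Inr; infer_instance

theorem Inr.inb {c : Cell} (h : Inr c) : Inb c := by unfold Inr at h; unfold Inb; omega

theorem cl_ix {c : Cell} (h : Inb c) : cl (ix c) = c := by
  obtain ⟨x, y⟩ := c
  obtain ⟨h1, h2, h3, h4⟩ := h
  simp only at h1 h2 h3 h4
  lift x to ℕ using h1
  lift y to ℕ using h3
  unfold cl ix
  ext <;> simp only <;> omega

theorem ix_cl (n : ℕ) : ix (cl n) = n := by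
  unfold cl ix
  simp only
  omega

theorem inb_cl {n : ℕ} (h : n < 1024) : Inb (cl n) := by
  unfold Inb cl; simp only; omega

theorem ix_lt {c : Cell} (h : Inb c) : ix c < 1024 := by
  unfold Inb at h; unfold ix; omega

theorem ix_inj {c d : Cell} (hc : Inb c) (hd : Inb d) (h : ix c = ix d) : c = d := by
  rw [← cl_ix hc, ← cl_ix hd, h]

/-! Constants -/

theorem ones_eq : ones = rp 1024 := by
  have h := rp_eq 1024
  have h2 : 63 * ones + 1 = 64 ^ 1024 := by decide +kernel
  omega

theorem c8_eq : c8 = 8 * rp 1024 := by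
  rw [← ones_eq]; decide +kernel
theorem c9_eq : c9 = 9 * rp 1024 := by
  rw [← ones_eq]; decide +kernel
theorem c10_eq : c10 = 10 * rp 1024 := by
  rw [← ones_eq]; decide +kernel
theorem c11_eq : c11 = 11 * rp 1024 := by
  rw [← ones_eq]; decide +kernel
theorem c31_eq : c31 = 31 * rp 1024 := by
  rw [← ones_eq]; decide +kernel
theorem m32_eq : m32 = 32 * rp 1024 := by
  rw [← ones_eq]; decide +kernel

theorem pH_eq : pH = 1 + 64 ^ 1 + 64 ^ (2 * 1) + 64 ^ (3 * 1) + 64 ^ (4 * 1) := by decide +kernel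
theorem pV_eq : pV = 1 + 64 ^ 32 + 64 ^ (2 * 32) + 64 ^ (3 * 32) + 64 ^ (4 * 32) := by decide +kernel
theorem pD_eq : pD = 1 + 64 ^ 33 + 64 ^ (2 * 33) + 64 ^ (3 * 33) + 64 ^ (4 * 33) := by decide +kernel
theorem pA_eq : pA = 1 + 64 ^ 31 + 64 ^ (2 * 31) + 64 ^ (3 * 31) + 64 ^ (4 * 31) := by decide +kernel

theorem inn_spec : ∀ n < 1024, inn.testBit (6 * n) = true → Inr (cl n) := by decide +kernel

theorem inn_lt : inn < 2 ^ 6144 := by decide +kernel

theorem inn_inr {n : ℕ} (h : inn.testBit (6 * n) = true) : n < 1024 ∧ Inr (cl n) := by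
  have hn : n < 1024 := by
    by_contra hc
    have : inn < 2 ^ (6 * n) := lt_of_lt_of_le inn_lt (Nat.pow_le_pow_right (by norm_num) (by omega))
    rw [Nat.testBit_lt_two_pow this] at h
    exact Bool.noConfusion h
  exact ⟨hn, inn_spec n hn h⟩

theorem okH_spec : ∀ n < 1024, okH.testBit n = true → n % 32 + 4 < 32 := by decide +kernel
theorem okV_spec : ∀ n < 1024, okV.testBit n = true → n / 32 + 4 < 32 := by decide +kernel
theorem okD_spec : ∀ n < 1024, okD.testBit n = true → n % 32 + 4 < 32 ∧ n / 32 + 4 < 32 := by decide +kernel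
theorem okA_spec : ∀ n < 1024, okA.testBit n = true → 4 ≤ n % 32 ∧ n / 32 + 4 < 32 := by decide +kernel

theorem bit_eq (c : ℕ) : bit c = 64 ^ c := by
  change 1 <<< (c * 6) = 64 ^ c
  rw [Nat.one_shiftLeft, Nat.mul_comm, pow_mul]
  norm_num

theorem dg_bit (c i : ℕ) : dg (bit c) i = if i = c then 1 else 0 := by
  rw [bit_eq, ← one_mul (64 ^ c), dg_mulpow (by norm_num)]

/-- `X` represents the position: First has `A`, Second has `B`. -/
structure Rep (X : ℕ) (A B : Finset Cell) : Prop where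
  dig : ∀ n < 1024, dg X n = if cl n ∈ A then 0 else if cl n ∈ B then 5 else 4
  out : ∀ n, 1024 ≤ n → dg X n = 0
  inA : ∀ c ∈ A, Inr c
  inB : ∀ c ∈ B, Inr c
  dis : Disjoint A B

theorem Rep.le5 {X : ℕ} {A B : Finset Cell} (h : Rep X A B) (n : ℕ) : dg X n ≤ 5 := by
  by_cases hn : n < 1024
  · rw [h.dig n hn]; split_ifs <;> norm_num
  · rw [h.out n (by omega)]; norm_num

theorem Rep.four {X : ℕ} {A B : Finset Cell} (h : Rep X A B) {n : ℕ} (hn : n < 1024) (h4 : dg X n = 4) :
    cl n ∉ A ∧ cl n ∉ B := by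
  rw [h.dig n hn] at h4
  by_cases h1 : cl n ∈ A
  · rw [if_pos h1] at h4; omega
  · rw [if_neg h1] at h4
    by_cases h2 : cl n ∈ B
    · rw [if_pos h2] at h4; omega
    · exact ⟨h1, h2⟩

theorem Rep.zero {X : ℕ} {A B : Finset Cell} (h : Rep X A B) {n : ℕ} (hn : n < 1024) (h0 : dg X n = 0) :
    cl n ∈ A := by
  rw [h.dig n hn] at h0
  by_cases h1 : cl n ∈ A
  · exact h1
  · rw [if_neg h1] at h0
    split_ifs at h0

theorem cl_inj {n m : ℕ} (h : cl n = cl m) : n = m := by
  rw [← ix_cl n, h, ix_cl]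

theorem fre_spec {X m : ℕ} {A B : Finset Cell} (h : Rep X A B) (hf : fre X m = true) :
    m < 1024 ∧ Inr (cl m) ∧ cl m ∉ A ∧ cl m ∉ B := by
  unfold fre at hf
  rw [Bool.and_eq_true] at hf
  obtain ⟨h1, h2⟩ := hf
  have h1 := Nat.eq_of_beq_eq_true h1
  have h2 := Nat.eq_of_beq_eq_true h2
  change bit m ||| inn = inn at h2
  change X &&& (7 * bit m) = 4 * bit m at h1
  have h3 : inn.testBit (6 * m) = true := by
    rw [← h2, Nat.testBit_or]
    have : (bit m).testBit (6 * m) = true := by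
      have := testBit_dg (bit m) m 0 (by norm_num)
      rw [dg_bit] at this
      simpa using this.symm
    simp [this]
  obtain ⟨hm, hin⟩ := inn_inr h3
  refine ⟨hm, hin, ?_⟩
  apply h.four hm
  have h4 : dg (X &&& (7 * bit m)) m = 4 := by
    rw [h1, bit_eq, dg_mulpow (by norm_num)]; simp
  rw [dg_land, bit_eq, dg_mulpow (by norm_num), if_pos rfl] at h4
  have h5 := h.le5 m
  interval_cases (dg X m) <;> simp_all

theorem Rep.plA {X m : ℕ} {A B : Finset Cell} (h : Rep X A B) (hf : fre X m = true) :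
    Rep (plA X m) (insert (cl m) A) B := by
  obtain ⟨hm, hin, hA, hB⟩ := fre_spec h hf
  have hd : ∀ n, dg (Five.plA X m) n = if n = m then 0 else dg X n := by
    intro n
    change dg (X ^^^ (4 * bit m)) n = _
    rw [dg_xor, bit_eq, dg_mulpow (by norm_num)]
    split_ifs with h1
    · subst h1
      rw [h.dig n hm, if_neg hA, if_neg hB]; rfl
    · simp
  constructor
  · intro n hn
    rw [hd]
    by_cases h1 : n = m
    · subst h1
      rw [if_pos rfl, if_pos (Finset.mem_insert_self _ _)]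
    · have h2 : cl n ∈ insert (cl m) A ↔ cl n ∈ A := by
        rw [Finset.mem_insert]
        exact ⟨fun h => h.resolve_left fun h => h1 (cl_inj h), Or.inr⟩
      rw [if_neg h1, h.dig n hn]
      simp only [h2]
  · intro n hn
    rw [hd, if_neg (by omega), h.out n hn]
  · intro c hc
    rcases Finset.mem_insert.1 hc with h4 | h4
    · exact h4 ▸ hin
    · exact h.inA c h4
  · exact h.inB
  · rw [Finset.disjoint_insert_left]
    exact ⟨hB, h.dis⟩

/-- The cells of a number with digits `0`, `1`. -/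
def cells (D : ℕ) : Finset Cell := ((Finset.range 1024).filter fun n => D.testBit (6 * n)).image cl

theorem mem_cells {D : ℕ} {c : Cell} : c ∈ cells D ↔ Inb c ∧ D.testBit (6 * ix c) = true := by
  unfold cells
  rw [Finset.mem_image]
  constructor
  · rintro ⟨n, hn, rfl⟩
    rw [Finset.mem_filter, Finset.mem_range] at hn
    exact ⟨inb_cl hn.1, by rw [ix_cl]; exact hn.2⟩
  · rintro ⟨h1, h2⟩
    exact ⟨ix c, by rw [Finset.mem_filter, Finset.mem_range]; exact ⟨ix_lt h1, h2⟩, cl_ix h1⟩

theorem dg01_bits (D : List ℕ) (n : ℕ) : dg (bits D) n = 0 ∨ dg (bits D) n = 1 := by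
  induction D with
  | nil => left; exact dg_zero n
  | cons c D ih =>
    change dg (bit c ||| bits D) n = 0 ∨ dg (bit c ||| bits D) n = 1
    rw [dg_lor, dg_bit]
    split_ifs <;> rcases ih with ih | ih <;> rw [ih] <;> decide

theorem dOk_inr {X D : ℕ} (h : dOk X D = true) {n : ℕ} (hn : D.testBit (6 * n) = true) : n < 1024 ∧ Inr (cl n) := by
  unfold dOk at h
  rw [Bool.and_eq_true] at h
  have h2 := Nat.eq_of_beq_eq_true h.2
  change D ||| inn = inn at h2
  apply inn_inr
  rw [← h2, Nat.testBit_or, hn]; rfl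

theorem Rep.lor {X D : ℕ} {A B : Finset Cell} (h : Rep X A B) (hD : ∀ n, dg D n = 0 ∨ dg D n = 1)
    (hO : dOk X D = true) : Rep (Nat.lor X D) A (B ∪ cells D) ∧ Disjoint A (cells D) ∧ Disjoint B (cells D) := by
  have hbit : ∀ n, D.testBit (6 * n) = decide (dg D n = 1) := by
    intro n
    have := testBit_dg D n 0 (by norm_num)
    rw [Nat.add_zero] at this
    rw [← this]
    rcases hD n with h | h <;> rw [h] <;> decide
  have hfree : ∀ n, dg D n = 1 → n < 1024 ∧ Inr (cl n) ∧ cl n ∉ A ∧ cl n ∉ B := by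
    intro n hn
    obtain ⟨hn1, hin⟩ := dOk_inr hO (by rw [hbit, hn]; rfl : D.testBit (6 * n) = true)
    refine ⟨hn1, hin, ?_⟩
    apply h.four hn1
    unfold dOk at hO
    rw [Bool.and_eq_true] at hO
    have h1 := Nat.eq_of_beq_eq_true hO.1
    change X &&& (7 * D) = 4 * D at h1
    have hm : ∀ k < 8, ∀ n, dg (k * D) n = k * dg D n := by
      intro k
      induction k with
      | zero => intro _ n; simp [dg_zero]
      | succ k ih =>
        intro hk n
        rw [Nat.succ_mul, dg_add, ih (by omega)]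
        · ring
        · intro i
          rw [ih (by omega)]
          rcases hD i with h | h <;> rw [h] <;> omega
    have h4 : dg (X &&& (7 * D)) n = 4 := by
      rw [h1, hm 4 (by norm_num), hn]
    rw [dg_land, hm 7 (by norm_num), hn] at h4
    have h5 := h.le5 n
    interval_cases (dg X n) <;> simp_all
  have hmem : ∀ n < 1024, cl n ∈ cells D ↔ dg D n = 1 := by
    intro n hn
    rw [mem_cells, ix_cl, hbit]
    simp [inb_cl hn]
  have hcell : ∀ c ∈ cells D, ∃ n < 1024, cl n = c ∧ dg D n = 1 := by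
    intro c hc
    have hc' := (mem_cells.1 hc)
    refine ⟨ix c, ix_lt hc'.1, cl_ix hc'.1, ?_⟩
    rw [← hmem _ (ix_lt hc'.1), cl_ix hc'.1]
    exact hc
  refine ⟨⟨?_, ?_, h.inA, ?_, ?_⟩, ?_, ?_⟩
  · intro n hn
    change dg (X ||| D) n = _
    rw [dg_lor, h.dig n hn]
    have h6 := hmem n hn
    by_cases hd : dg D n = 1
    · have h7 := hfree n hd
      rw [hd, if_neg h7.2.2.1, if_neg h7.2.2.2, if_neg h7.2.2.1, if_pos (Finset.mem_union_right _ (h6.2 hd))]
      rfl
    · have hd0 : dg D n = 0 := by rcases hD n with h | h; exacts [h, absurd h hd]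
      rw [hd0]
      have h8 : cl n ∉ cells D := fun hc => hd (h6.1 hc)
      simp [h8]
  · intro n hn
    change dg (X ||| D) n = _
    rw [dg_lor, h.out n hn]
    rcases hD n with h | h
    · rw [h]; rfl
    · have := (hfree n h).1; omega
  · intro c hc
    rcases Finset.mem_union.1 hc with hc | hc
    · exact h.inB c hc
    · obtain ⟨n, -, rfl, hn⟩ := hcell c hc
      exact (hfree n hn).2.1
  · rw [Finset.disjoint_union_right]
    refine ⟨h.dis, ?_⟩
    rw [Finset.disjoint_right]
    intro c hc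
    obtain ⟨n, -, rfl, hn⟩ := hcell c hc
    exact (hfree n hn).2.2.1
  · rw [Finset.disjoint_right]
    intro c hc
    obtain ⟨n, -, rfl, hn⟩ := hcell c hc
    exact (hfree n hn).2.2.1
  · rw [Finset.disjoint_right]
    intro c hc
    obtain ⟨n, -, rfl, hn⟩ := hcell c hc
    exact (hfree n hn).2.2.2

end Pool.Agent.H79.Five
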