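import Pool.Agent.H79.Five.Sem

set_option autoImplicit false
set_option linter.all false
set_option maxRecDepth 10000

/-! Forgetting stones of Second. -/

namespace Pool.Agent.H79.Five

/-- Forgetting stones of Second. -/
theorem NZ.drop {X Z : ℕ} (D : List ℕ) (Y Z' : ℕ) (h : Bool.and (Bool.and (dOk X (bits D)) (Nat.beq (Nat.lor X (bits D)) Y))
    (Nat.beq (Nat.lor Z (Nat.xor Z' (Nat.land Z' (bits D)))) Z) = true) (hY : NZ Y Z') : NZ X Z := by
  obtain ⟨h1, h2⟩ := andb h
  obtain ⟨h3, h4⟩ := andb h1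
  have h4 := Nat.eq_of_beq_eq_true h4
  have h2 := Nat.eq_of_beq_eq_true h2
  subst h4
  intro A B hX
  obtain ⟨hX2, hA2, hB2⟩ := hX.lor (dg01_bits D) h3
  obtain ⟨n, hn⟩ := hY _ _ hX2
  refine ⟨n, fun s hs hz => ?_⟩
  by_cases hD : s ∈ cells (bits D)
  · obtain ⟨x, hx⟩ := Infinite.exists_notMem_finset (A ∪ cells Z')
    rw [Finset.mem_union, not_or] at hx
    apply (hn x hx.1 hx.2).anti
    intro y hy
    apply Finset.mem_insert_of_mem
    rcases Finset.mem_insert.1 hy with h5 | h5
    · exact Finset.mem_union_right _ (h5 ▸ hD)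
    · exact Finset.mem_union_left _ h5
  · apply (hn s hs _).anti
    · exact Finset.insert_subset_insert _ Finset.subset_union_left
    · intro hc
      apply hz
      rw [mem_cells] at hc hD ⊢
      refine ⟨hc.1, ?_⟩
      have h6 : (bits D).testBit (6 * ix s) = false := by
        by_contra h7
        exact hD ⟨hc.1, by simpa using h7⟩
      change Z ||| (Z' ^^^ (Z' &&& bits D)) = Z at h2
      rw [← h2, Nat.testBit_or, Nat.testBit_xor, Nat.testBit_and, hc.2, h6]
      simp

end Pool.Agent.H79.Five
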