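import Pool.Agent.H79.Five.Drop

set_option autoImplicit false
set_option linter.all false
set_option maxRecDepth 10000

/-! Certificates as numbers. -/

namespace Pool.Agent.H79.Five

/-- Call by value. -/
def frN (v : ℕ) (k : ℕ → ℕ) : ℕ := @Nat.rec (fun _ => ℕ) (nat_lit 0) (fun p _ => k p) (Nat.add v (nat_lit 1))

theorem frN_eq (v : ℕ) (k : ℕ → ℕ) : frN v k = k v := rfl

/-- The lowest `k` cells of `n`. -/
def dD (k n : ℕ) : List ℕ :=
  @Nat.rec (fun _ => ℕ → List ℕ) (fun _ => []) (fun _ ih n =>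
    List.cons (Nat.land n (nat_lit 1023)) (ih (Nat.shiftRight n (nat_lit 10)))) k n

/-- The length of the first part, stored at `o`. -/
def ln (n o : ℕ) : ℕ := Nat.land (Nat.shiftRight n o) (nat_lit 1048575)

/-- The first part, stored after its length `l`. -/
def p1 (n o l : ℕ) : ℕ :=
  Nat.land (Nat.shiftRight n (Nat.add o (nat_lit 20))) (Nat.sub (Nat.shiftLeft (nat_lit 1) l) (nat_lit 1))

/-- The second part. -/
def p2 (n o l : ℕ) : ℕ := Nat.shiftRight n (Nat.add (Nat.add o (nat_lit 20)) l)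

/-- Moves. -/
def dN (ih : Bool → ℕ → T) (n : ℕ) : T :=
  @Nat.rec (fun _ => T) T.e (fun t _ =>
    @Nat.rec (fun _ => T) (T.v (Nat.land (Nat.shiftRight n (nat_lit 3)) (nat_lit 4095)) (Nat.shiftRight n (nat_lit 15))) (fun t _ =>
      @Nat.rec (fun _ => T) (T.d (Nat.land (Nat.shiftRight n (nat_lit 3)) (nat_lit 1023))
        (Nat.land (Nat.shiftRight n (nat_lit 13)) (nat_lit 4095)) (Nat.land (Nat.shiftRight n (nat_lit 25)) (nat_lit 1023))
        (Nat.land (Nat.shiftRight n (nat_lit 35)) (nat_lit 4095)) (Nat.shiftRight n (nat_lit 47))) (fun t _ =>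
        @Nat.rec (fun _ => T) (T.r (Nat.land (Nat.shiftRight n (nat_lit 3)) (nat_lit 1023))
          (Nat.land (Nat.shiftRight n (nat_lit 13)) (nat_lit 4095)) (Nat.land (Nat.shiftRight n (nat_lit 25)) (nat_lit 1023))
          (ih false (Nat.shiftRight n (nat_lit 35)))) (fun t _ =>
          @Nat.rec (fun _ => T) (T.q (Nat.land (Nat.shiftRight n (nat_lit 3)) (nat_lit 1023))
            (ih true (Nat.shiftRight n (nat_lit 13)))) (fun _ _ => T.e) t) t) t) t) (Nat.land n (nat_lit 7))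

def dA (ih : Bool → ℕ → T) (z : ℕ) (D : List ℕ) (n o : ℕ) : T :=
  T.a z D (ih false (p1 n o (ln n o))) (ih true (p2 n o (ln n o)))

/-- Alternatives. -/
def dC (ih : Bool → ℕ → T) (n : ℕ) : T :=
  @Nat.rec (fun _ => T) T.e (fun t _ =>
    @Nat.rec (fun _ => T) (dA ih (nat_lit 0) [Nat.land (Nat.shiftRight n (nat_lit 3)) (nat_lit 1023)] n (nat_lit 13)) (fun t _ =>
      @Nat.rec (fun _ => T) (dA ih (nat_lit 1) [] n (nat_lit 3)) (fun t _ =>
        @Nat.rec (fun _ => T) (dA ih (nat_lit 1) [Nat.land (Nat.shiftRight n (nat_lit 3)) (nat_lit 1023)] n (nat_lit 13)) (fun t _ =>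
          dA ih t (dD (Nat.land (Nat.shiftRight n (nat_lit 3)) (nat_lit 15)) (Nat.shiftRight n (nat_lit 7))) n
            (Nat.add (nat_lit 7) (Nat.mul (nat_lit 10) (Nat.land (Nat.shiftRight n (nat_lit 3)) (nat_lit 15))))) t) t) t) (Nat.land n (nat_lit 7))

/-- The decoder. -/
def dec (f : ℕ) : Bool → ℕ → T :=
  @Nat.rec (fun _ => Bool → ℕ → T) (fun _ _ => T.e) (fun _ ih b n => @Bool.rec (fun _ => T) (dN ih n) (dC ih n) b) f

abbrev Gn := Bool → ℕ → ℕ → ℕ → ℕ → ℕ → ℕ → ℕ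

def gD (n X j m : ℕ) : ℕ :=
  grd (fre X m) (fD m (Nat.land (Nat.shiftRight n (nat_lit 13)) (nat_lit 4095)) (Nat.land (Nat.shiftRight n (nat_lit 25)) (nat_lit 1023))
        (Nat.land (Nat.shiftRight n (nat_lit 35)) (nat_lit 4095)) (Nat.shiftRight n (nat_lit 47)) X j (plA X m))

def gR (ih : Gn) (n X j m : ℕ) : ℕ :=
  grd (fre X m) (frN (Nat.land (Nat.shiftRight n (nat_lit 13)) (nat_lit 4095)) fun w =>
    frN (Nat.land (Nat.shiftRight n (nat_lit 25)) (nat_lit 1023)) fun c =>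
    frN (Nat.shiftRight n (nat_lit 35)) fun s => fR m w c (fun b => ih b s) X j (plA X m))

def gQ (ih : Gn) (n X j m : ℕ) : ℕ :=
  grd (fre X m) (frN (Nat.shiftRight n (nat_lit 13)) fun s => fQ m (fun b => ih b s) j (plA X m))

def gN (ih : Gn) (n X j : ℕ) : ℕ :=
  @Nat.rec (fun _ => ℕ) (nat_lit 0) (fun t _ =>
    @Nat.rec (fun _ => ℕ) (fV (Nat.land (Nat.shiftRight n (nat_lit 3)) (nat_lit 4095)) (Nat.shiftRight n (nat_lit 15)) X j) (fun t _ =>
      frN (Nat.land (Nat.shiftRight n (nat_lit 3)) (nat_lit 1023)) fun m =>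
      @Nat.rec (fun _ => ℕ) (gD n X j m) (fun t _ =>
        @Nat.rec (fun _ => ℕ) (gR ih n X j m) (fun t _ =>
          @Nat.rec (fun _ => ℕ) (gQ ih n X j m) (fun _ _ => nat_lit 0) t) t) t) t) (Nat.land n (nat_lit 7))

def gA (ih : Gn) (z D n o X j I DR acc : ℕ) : ℕ :=
  grd (dOk X D) (frN (ln n o) fun l => frN (p1 n o l) fun r => frN (p2 n o l) fun s =>
    fA z D (fun b => ih b r) (fun b => ih b s) X j I DR acc)

/-- A zone alternative without cells. -/
def gZ (ih : Gn) (n X j I DR acc : ℕ) : ℕ :=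
  frN (ln n (nat_lit 3)) fun l => frN (p1 n (nat_lit 3) l) fun r => frN (p2 n (nat_lit 3) l) fun s =>
    grd (Nat.ble j (nat_lit 2)) (bnd (ih false r X (Nat.succ j) (nat_lit 0) (nat_lit 0) (nat_lit 0)) fun p =>
      ih true s X j (Nat.land I (Nat.shiftRight p (Nat.add (nat_lit 64) (Nat.mul (nat_lit 6144) j))))
        DR (Nat.lor acc (Nat.land (Nat.shiftRight p (nat_lit 64)) (mask j))))

def gC (ih : Gn) (n X j I DR acc : ℕ) : ℕ :=
  @Nat.rec (fun _ => ℕ) (fE X I DR acc) (fun t _ =>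
    @Nat.rec (fun _ => ℕ) (gA ih (nat_lit 0) (bits [Nat.land (Nat.shiftRight n (nat_lit 3)) (nat_lit 1023)]) n (nat_lit 13) X j I DR acc) (fun t _ =>
      @Nat.rec (fun _ => ℕ) (gZ ih n X j I DR acc) (fun t _ =>
        @Nat.rec (fun _ => ℕ) (gA ih (nat_lit 1) (bits [Nat.land (Nat.shiftRight n (nat_lit 3)) (nat_lit 1023)]) n (nat_lit 13) X j I DR acc) (fun t _ =>
          gA ih t (bits (dD (Nat.land (Nat.shiftRight n (nat_lit 3)) (nat_lit 15)) (Nat.shiftRight n (nat_lit 7)))) n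
            (Nat.add (nat_lit 7) (Nat.mul (nat_lit 10) (Nat.land (Nat.shiftRight n (nat_lit 3)) (nat_lit 15)))) X j I DR acc) t) t) t) (Nat.land n (nat_lit 7))

/-- The checker on numbers. -/
def G (f : ℕ) : Gn :=
  @Nat.rec (fun _ => Gn) (fun b _ X _ I DR acc => @Bool.rec (fun _ => ℕ) (nat_lit 0) (fE X I DR acc) b)
    (fun _ ih b n X j I DR acc => @Bool.rec (fun _ => ℕ) (gN ih n X j) (gC ih n X j I DR acc) b) f

theorem gN_eq {ih : Gn} {dh : Bool → ℕ → T} (h : ∀ b n X j I DR acc, ih b n X j I DR acc = F (dh b n) b X j I DR acc)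
    (n X j I DR acc : ℕ) : gN ih n X j = F (dN dh n) false X j I DR acc := by
  unfold gN dN
  rcases Nat.land n (nat_lit 7) with _ | _ | _ | _ | _ | t
  · rfl
  · rfl
  · rfl
  · change gR ih n X j (Nat.land (Nat.shiftRight n 3) 1023) = _
    have : (fun b => ih b (Nat.shiftRight n 35)) false = F (dh false (Nat.shiftRight n 35)) false := by
      funext X j I DR acc; exact h _ _ _ _ _ _ _
    change grd _ (fR _ _ _ (fun b => ih b (Nat.shiftRight n 35)) X j _) = grd _ (fR _ _ _ (F (dh false (Nat.shiftRight n 35))) X j _)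
    congr 1
    unfold fR
    rw [this]
  · change gQ ih n X j (Nat.land (Nat.shiftRight n 3) 1023) = _
    have : (fun b => ih b (Nat.shiftRight n 13)) true = F (dh true (Nat.shiftRight n 13)) true := by
      funext X j I DR acc; exact h _ _ _ _ _ _ _
    change grd _ (fQ _ (fun b => ih b (Nat.shiftRight n 13)) j _) = grd _ (fQ _ (F (dh true (Nat.shiftRight n 13))) j _)
    congr 1
    unfold fQ
    rw [this]
  · rfl

theorem gA_eq {ih : Gn} {dh : Bool → ℕ → T} (h : ∀ b n X j I DR acc, ih b n X j I DR acc = F (dh b n) b X j I DR acc)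
    (z : ℕ) (D : List ℕ) (n o X j I DR acc : ℕ) : gA ih z (bits D) n o X j I DR acc = F (dA dh z D n o) true X j I DR acc := by
  have h1 : ∀ r, (fun b => ih b r) false = F (dh false r) false := fun r => by
    funext X j I DR acc; exact h _ _ _ _ _ _ _
  have h2 : ∀ r, (fun b => ih b r) true = F (dh true r) true := fun r => by
    funext X j I DR acc; exact h _ _ _ _ _ _ _
  change grd (dOk X (bits D)) (fA z (bits D) (fun b => ih b (p1 n o (ln n o))) (fun b => ih b (p2 n o (ln n o))) X j I DR acc) =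
    grd (dOk X (bits D)) (fA z (bits D) (F (dh false (p1 n o (ln n o)))) (F (dh true (p2 n o (ln n o)))) X j I DR acc)
  congr 1
  unfold fA
  rw [h1, h2]

theorem gZ_eq {ih : Gn} {dh : Bool → ℕ → T} (h : ∀ b n X j I DR acc, ih b n X j I DR acc = F (dh b n) b X j I DR acc)
    (n X j I DR acc : ℕ) : gZ ih n X j I DR acc = F (dA dh 1 [] n 3) true X j I DR acc := by
  have h1 : dOk X (bits []) = true := by
    change Bool.and (Nat.beq (X &&& 0) 0) (Nat.beq (0 ||| inn) inn) = true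
    rw [Nat.and_zero, Nat.zero_or, Nat.beq_refl]; rfl
  have h3 : ∀ A, A ^^^ (A &&& 0) = A := by intro A; rw [Nat.and_zero, Nat.xor_zero]
  change _ = grd (dOk X (bits [])) (fA 1 (bits []) (F (dh false (p1 n 3 (ln n 3)))) (F (dh true (p2 n 3 (ln n 3)))) X j I DR acc)
  rw [h1]
  change _ = grd (Nat.ble j 2) (bnd (F (dh false (p1 n 3 (ln n 3))) false (X ||| 0) (Nat.succ j) 0 0 0) fun p =>
    F (dh true (p2 n 3 (ln n 3))) true X j (I &&& ((p >>> (64 + 6144 * j)) ^^^ ((p >>> (64 + 6144 * j)) &&& 0))) DR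
      (acc ||| ((p >>> 64) &&& mask j)))
  simp only [h3, Nat.or_zero, ← h]
  rfl

theorem gC_eq {ih : Gn} {dh : Bool → ℕ → T} (h : ∀ b n X j I DR acc, ih b n X j I DR acc = F (dh b n) b X j I DR acc)
    (n X j I DR acc : ℕ) : gC ih n X j I DR acc = F (dC dh n) true X j I DR acc := by
  unfold gC dC
  rcases Nat.land n (nat_lit 7) with _ | _ | _ | _ | t
  · rfl
  · exact gA_eq h _ _ _ _ _ _ _ _ _
  · exact gZ_eq h _ _ _ _ _ _
  · exact gA_eq h _ _ _ _ _ _ _ _ _
  · exact gA_eq h _ _ _ _ _ _ _ _ _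

theorem G_eq (f : ℕ) : ∀ b n X j I DR acc, G f b n X j I DR acc = F (dec f b n) b X j I DR acc := by
  induction f with
  | zero =>
    intro b n X j I DR acc
    cases b
    · rfl
    · rfl
  | succ f ih =>
    intro b n X j I DR acc
    cases b
    · exact gN_eq ih n X j I DR acc
    · exact gC_eq ih n X j I DR acc

/-- Long numbers in pieces of 8192 bits. -/
def jn (L : List ℕ) : ℕ :=
  @List.rec ℕ (fun _ => ℕ) (nat_lit 0) (fun c _ r => Nat.lor c (Nat.shiftLeft r (nat_lit 8192))) L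

theorem S.e {X : ℕ} (L : List ℕ)
    (h : Nat.beq (frN (jn L) fun n => G (nat_lit 1000) false n X (nat_lit 0) (nat_lit 0) (nat_lit 0) (nat_lit 0)) (nat_lit 0) = false) :
    S X := by
  rw [frN_eq] at h
  exact S.of (dec 1000 false (jn L)) (by rw [← G_eq]; exact h)

/-- The zone is inside `Z`. -/
def y1 (L : List ℕ) (X Z : ℕ) : ℕ :=
  bnd (frN (jn L) fun n => G (nat_lit 1000) false n X (nat_lit 1) (nat_lit 0) (nat_lit 0) (nat_lit 0)) fun p =>
    grd (Nat.beq (Nat.lor (Nat.shiftRight p (nat_lit 64)) Z) Z) (nat_lit 1)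

theorem NZ.e {X Z : ℕ} (L : List ℕ) (h : y1 L X Z = 1) : NZ X Z := by
  unfold y1 at h
  rw [frN_eq, G_eq] at h
  exact NZ.of (dec 1000 false (jn L)) h

end Pool.Agent.H79.Five
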