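import Pool.Agent.H79.Five.Win

set_option autoImplicit false
set_option linter.all false
set_option maxRecDepth 10000

/-! Completing five. -/

namespace Pool.Agent.H79.Five

open Classical in
theorem dg_mask {s δ : ℕ} (hδ : 1 ≤ δ) (i : ℕ) :
    dg (7 * 64 ^ s * pol δ) i = if ∃ k < 5, i = s + k * δ then 7 else 0 := by
  have hX : ∀ i, dg (7 * 64 ^ s) i ≤ 7 := by
    intro i; rw [dg_mulpow (by norm_num)]; split_ifs <;> omega
  unfold pol
  rw [dg_win (B := 7) (by norm_num) hX]
  simp only [dg_mulpow (show 7 < 64 by norm_num)]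
  by_cases h : ∃ k < 5, i = s + k * δ
  · rw [if_pos h]
    obtain ⟨k, hk, rfl⟩ := h
    interval_cases k
    · simp only [zero_mul, add_zero]
      rw [if_pos trivial]
      have h1 : ¬ (s - δ = s) ∨ ¬ δ ≤ s := by omega
      have h2 : ¬ (s - 2 * δ = s) ∨ ¬ 2 * δ ≤ s := by omega
      have h3 : ¬ (s - 3 * δ = s) ∨ ¬ 3 * δ ≤ s := by omega
      have h4 : ¬ (s - 4 * δ = s) ∨ ¬ 4 * δ ≤ s := by omega
      split_ifs <;> omega
    all_goals split_ifs <;> omega
  · rw [if_neg h]
    push Not at h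
    have h0 := h 0 (by norm_num)
    have h1 := h 1 (by norm_num)
    have h2 := h 2 (by norm_num)
    have h3 := h 3 (by norm_num)
    have h4 := h 4 (by norm_num)
    split_ifs <;> omega

theorem and7 (v : ℕ) (hv : v ≤ 5) : (v &&& 7 = 0 → v = 0) ∧ (v &&& 7 = 4 → v = 4) := by
  interval_cases v <;> decide

open Classical in
theorem t_spec {X w c ok p δ : ℕ} {A B : Finset Cell} (h : Rep X A B) (hp : p = pol δ) (hδ : 1 ≤ δ)
    (hok : ∀ n < 1024, ok.testBit n = true → n + 4 * δ < 1024)
    (ht : fiv.t X w c ok p = true) :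
    ∃ s < 1024, ok.testBit s = true ∧ c < 1024 ∧ dg X c = 4 ∧
      ∀ k < 5, s + k * δ = c ∨ cl (s + k * δ) ∈ A := by
  unfold fiv.t at ht
  rw [Bool.and_eq_true] at ht
  obtain ⟨h1, h2⟩ := ht
  have h1 := Nat.eq_of_beq_eq_true h1
  have h2 := Nat.eq_of_beq_eq_true h2
  set s := w &&& 1023 with hs
  change (ok >>> s) &&& 1 = 1 at h1
  change X &&& ((7 * p) <<< (s * 6)) = 4 * bit c at h2
  have hs1 : s < 1024 := Nat.and_lt_two_pow (n := 10) _ (by norm_num)
  have hok1 : ok.testBit s = true := by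
    rw [Nat.and_one_is_mod] at h1
    rw [Nat.testBit_eq_decide_div_mod_eq, ← Nat.shiftRight_eq_div_pow, h1]; rfl
  have hm : (7 * p) <<< (s * 6) = 7 * 64 ^ s * pol δ := by
    rw [Nat.shiftLeft_eq, Nat.mul_comm s 6, two6, hp]; ring
  rw [hm, bit_eq] at h2
  have key : ∀ i, dg X i &&& (@ite ℕ (∃ k < 5, i = s + k * δ) (Classical.propDecidable _) 7 0) = if i = c then 4 else 0 := by
    intro i
    rw [← dg_mask hδ, ← dg_land, h2, dg_mulpow (by norm_num)]
  have hc : ∃ k < 5, c = s + k * δ := by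
    by_contra hc
    have := key c
    rw [if_neg hc, if_pos rfl] at this
    simp at this
  have hrange : ∀ k < 5, s + k * δ < 1024 := by
    intro k hk
    have := hok s hs1 hok1
    have : k * δ ≤ 4 * δ := Nat.mul_le_mul_right _ (by omega)
    omega
  refine ⟨s, hs1, hok1, ?_, ?_, ?_⟩
  · obtain ⟨k, hk, rfl⟩ := hc; exact hrange k hk
  · have := key c
    rw [if_pos hc, if_pos rfl] at this
    exact (and7 _ (h.le5 c)).2 this
  · intro k hk
    by_cases hkc : s + k * δ = c
    · exact Or.inl hkc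
    · right
      have := key (s + k * δ)
      rw [if_pos ⟨k, hk, rfl⟩, if_neg hkc] at this
      exact h.zero (hrange k hk) ((and7 _ (h.le5 _)).1 this)

theorem fiv_spec {X w c : ℕ} {A B : Finset Cell} (h : Rep X A B) (hf : fiv X w c = true) :
    c < 1024 ∧ dg X c = 4 ∧ Five (insert (cl c) A) := by
  have main : ∀ (δ : ℕ) (s : ℕ), (∀ k < 5, s + k * δ = c ∨ cl (s + k * δ) ∈ A) →
      ∀ k < 5, cl (s + k * δ) ∈ insert (cl c) A := by
    intro δ s hk k hk5
    rcases hk k hk5 with h | h
    · rw [h]; exact Finset.mem_insert_self _ _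
    · exact Finset.mem_insert_of_mem h
  unfold fiv at hf
  match hw : Nat.shiftRight w (nat_lit 10), hf with
  | 0, hf =>
    obtain ⟨s, hs, hok, hc, h4, hk⟩ := t_spec h (show pH = pol 1 by rw [pH_eq]; rfl) (by norm_num)
      (fun n hn h => by have := okH_spec n hn h; omega) hf
    refine ⟨hc, h4, cl s, (1, 0), Or.inl rfl, fun k hk5 => ?_⟩
    have := main 1 s hk k hk5
    rwa [show cl (s + k * 1) = cl s + (k : ℤ) • ((1, 0) : Cell) by
      have := okH_spec s hs hok
      unfold cl
      simp only [Prod.smul_mk, smul_eq_mul, Prod.mk_add_mk, mul_one, mul_zero]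
      ext <;> simp only <;> omega] at this
  | 1, hf =>
    obtain ⟨s, hs, hok, hc, h4, hk⟩ := t_spec h (show pV = pol 32 by rw [pV_eq]; rfl) (by norm_num)
      (fun n hn h => by have := okV_spec n hn h; omega) hf
    refine ⟨hc, h4, cl s, (0, 1), Or.inr (Or.inl rfl), fun k hk5 => ?_⟩
    have := main 32 s hk k hk5
    rwa [show cl (s + k * 32) = cl s + (k : ℤ) • ((0, 1) : Cell) by
      have := okV_spec s hs hok
      unfold cl
      simp only [Prod.smul_mk, smul_eq_mul, Prod.mk_add_mk, mul_one, mul_zero]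
      ext <;> simp only <;> omega] at this
  | 2, hf =>
    obtain ⟨s, hs, hok, hc, h4, hk⟩ := t_spec h (show pD = pol 33 by rw [pD_eq]; rfl) (by norm_num)
      (fun n hn h => by have := okD_spec n hn h; omega) hf
    refine ⟨hc, h4, cl s, (1, 1), Or.inr (Or.inr (Or.inl rfl)), fun k hk5 => ?_⟩
    have := main 33 s hk k hk5
    rwa [show cl (s + k * 33) = cl s + (k : ℤ) • ((1, 1) : Cell) by
      have := okD_spec s hs hok
      unfold cl
      simp only [Prod.smul_mk, smul_eq_mul, Prod.mk_add_mk, mul_one, mul_zero]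
      ext <;> simp only <;> omega] at this
  | n + 3, hf =>
    obtain ⟨s, hs, hok, hc, h4, hk⟩ := t_spec h (show pA = pol 31 by rw [pA_eq]; rfl) (by norm_num)
      (fun n hn h => by have := okA_spec n hn h; omega) hf
    refine ⟨hc, h4, cl (s + 4 * 31), (1, -1), Or.inr (Or.inr (Or.inr rfl)), fun k hk5 => ?_⟩
    have := main 31 s hk (4 - k) (by omega)
    rwa [show cl (s + (4 - k) * 31) = cl (s + 4 * 31) + (k : ℤ) • ((1, -1) : Cell) by
      have := okA_spec s hs hok
      unfold cl
      simp only [Prod.smul_mk, smul_eq_mul, Prod.mk_add_mk, mul_one, mul_zero, mul_neg]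
      ext <;> simp only <;> omega] at this

end Pool.Agent.H79.Five
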