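import Pool.Agent.H79.Five.Sound

set_option autoImplicit false
set_option linter.all false
set_option maxRecDepth 10000

/-! Soundness of the checker: the induction. -/

namespace Pool.Agent.H79.Five

theorem tb_or {x y b : ℕ} (h : x.testBit b = true) : (Nat.lor x y).testBit b = true := by
  change (x ||| y).testBit b = true
  rw [Nat.testBit_or, h]; rfl

theorem tb_or' {x y b : ℕ} (h : y.testBit b = true) : (Nat.lor x y).testBit b = true := by
  change (x ||| y).testBit b = true
  rw [Nat.testBit_or, h, Bool.or_true]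

theorem mono_acc (t : T) : ∀ {X j I DR acc N : ℕ}, F t true X j I DR acc = N + 1 →
    ∀ b, acc.testBit b = true → (N >>> 64).testBit b = true := by
  induction t with
  | e =>
    intro X j I DR acc N h b hb
    have h1 := (grd_eq (b := true) (r := fE X I DR acc) h).2
    have h2 := (grd_eq (b := Nat.beq (Nat.lor (Nat.land I (emp X)) DR) DR) (r := res X acc) h1).2
    rw [res_eq h2]; exact hb
  | v w c => intro X j I DR acc N h; exact absurd (nod_eq (b := true) (r := fV w c X j) h).1 (by simp)
  | d m w c w2 c2 => intro X j I DR acc N h; exact absurd (nod_eq (b := true) (r := grd (fre X m) (fD m w c w2 c2 X j (plA X m))) h).1 (by simp)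
  | r m w c k _ => intro X j I DR acc N h; exact absurd (nod_eq (b := true) (r := grd (fre X m) (fR m w c (F k) X j (plA X m))) h).1 (by simp)
  | q m a _ => intro X j I DR acc N h; exact absurd (nod_eq (b := true) (r := grd (fre X m) (fQ m (F a) j (plA X m))) h).1 (by simp)
  | a z D k n _ ihn =>
    intro X j I DR acc N h b hb
    have h1 := (grd_eq (b := true) (r := grd (dOk X (bits D)) (fA z (bits D) (F k) (F n) X j I DR acc)) h).2
    have h2 := (grd_eq (b := dOk X (bits D)) (r := fA z (bits D) (F k) (F n) X j I DR acc) h1).2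
    cases z with
    | zero =>
      obtain ⟨p, -, h3⟩ := bnd_eq (r := F k false (Nat.lor X (bits D)) j 0 0 0)
        (k := fun p => F n true X j I (Nat.lor DR (bits D)) (Nat.lor acc (Nat.shiftRight p 64))) h2
      exact ihn h3 b (tb_or hb)
    | succ z =>
      have h3 := (grd_eq (b := Nat.ble j 2) h2).2
      obtain ⟨p, -, h4⟩ := bnd_eq (r := F k false (Nat.lor X (bits D)) (Nat.succ j) 0 0 0) h3
      exact ihn h4 b (tb_or hb)

theorem emp_spec {X n : ℕ} (hn : n < 1024) (h : dg X n = 4) : (emp X).testBit (6 * n) = true := by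
  have h1 : X.testBit (6 * n) = false := by
    have := testBit_dg X n 0 (by norm_num)
    rw [h, Nat.add_zero] at this
    rw [← this]; decide
  have h2 : X.testBit (6 * n + 2) = true := by
    have := testBit_dg X n 2 (by norm_num)
    rw [h] at this
    rw [← this]; decide
  have h3 : ones.testBit (6 * n) = true := by
    have := testBit_dg ones n 0 (by norm_num)
    rw [ones_eq, ← one_mul (rp 1024), dg_mul_rp (by norm_num), if_pos hn, Nat.add_zero, one_mul] at this
    rw [ones_eq, ← this]; decide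
  change ((X >>> 2 &&& ones) ^^^ (X &&& ones)).testBit (6 * n) = true
  rw [Nat.testBit_xor, Nat.testBit_and, Nat.testBit_and, Nat.testBit_shiftRight, h3, h1, Nat.add_comm 2, h2]
  rfl

theorem ones_tb {n : ℕ} (hn : n < 1024) : ones.testBit (6 * n) = true := by
  have := testBit_dg ones n 0 (by norm_num)
  rw [ones_eq, ← one_mul (rp 1024), dg_mul_rp (by norm_num), if_pos hn, Nat.add_zero, one_mul] at this
  rw [ones_eq, ← this]; decide

/-- The index under which the reply `s` is covered. -/
def yi (B : Finset Cell) (s : Cell) : ℕ := if Inb s ∧ s ∉ B then ix s else 0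

theorem yi_lt (B : Finset Cell) (s : Cell) : yi B s < 1024 := by
  unfold yi; split_ifs with h
  · exact ix_lt h.1
  · norm_num

theorem yi_dg {X : ℕ} {A B : Finset Cell} (h : Rep X A B) {s : Cell} (hs : s ∉ A) : dg X (yi B s) = 4 := by
  unfold yi
  split_ifs with h1
  · rw [h.dig _ (ix_lt h1.1), cl_ix h1.1, if_neg hs, if_neg h1.2]
  · have h0 : ¬ Inr (cl 0) := by decide
    rw [h.dig 0 (by norm_num), if_neg (fun hc => h0 (h.inA _ hc)), if_neg (fun hc => h0 (h.inB _ hc))]

def NodeOK (t : T) : Prop := ∀ (X j N I DR acc : ℕ) (A B : Finset Cell), Rep X A B → j ≤ 3 →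
  F t false X j I DR acc = N + 1 → ∀ E U R : Finset Cell, Cov j (N >>> 64) A E U → R ⊆ B ∪ U →
  Disjoint R (A ∪ E) → W (ht t) (A ∪ E) R

def AltOK (t : T) : Prop := ∀ (X j N I DR acc : ℕ) (A B : Finset Cell), Rep X A B → j ≤ 3 →
  F t true X j I DR acc = N + 1 → ∀ E U R : Finset Cell, Cov j (N >>> 64) A E U → R ⊆ B ∪ U →
  Disjoint R (A ∪ E) → ∀ n0, (∀ s, s ∉ A ∪ E → s ∉ R →
    (I.testBit (6 * yi B s) = false ∨ DR.testBit (6 * yi B s) = true) → W n0 (A ∪ E) (insert s R)) →
  ∀ s, s ∉ A ∪ E → s ∉ R → W (max n0 (ht t)) (A ∪ E) (insert s R)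

theorem Cov.not_mem {j P : ℕ} {A E U : Finset Cell} (h : Cov j P A E U) {c : Cell} (hc : ∀ i < j, zn P i c) : c ∉ U := by
  intro hU
  obtain ⟨i, hi, hz⟩ := h.cel c hU
  exact hz (hc i hi)

theorem zn_or {x y i : ℕ} {c : Cell} (h : zn x i c) : zn (Nat.lor x y) i c := ⟨h.1, tb_or h.2⟩
theorem zn_or' {x y i : ℕ} {c : Cell} (h : zn y i c) : zn (Nat.lor x y) i c := ⟨h.1, tb_or' h.2⟩

theorem or_lt {x y : ℕ} (hx : x < 2 ^ 6144) (hy : y < 2 ^ 6144) : Nat.lor x y < 2 ^ 6144 := Nat.or_lt_two_pow hx hy

theorem nodeOK_v (w c : ℕ) : NodeOK (.v w c) := by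
  intro X j N I DR acc A B hX hj hF E U R hC hR hdis
  have h1 := (nod_eq (b := false) (r := fV w c X j) hF).2
  obtain ⟨h2, h3⟩ := grd_eq (b := fiv X w c) h1
  obtain ⟨hc, h4, h5⟩ := fiv_spec hX h2
  have hP := res_eq h3
  obtain ⟨hA, hB⟩ := hX.four hc h4
  have hU : cl c ∉ U := hC.not_mem fun i hi => by
    rw [hP]
    exact zn_cell hc (bit_lt hc) hj hi (bit_self c)
  have hcR : cl c ∉ R := fun h => by
    rcases Finset.mem_union.1 (hR h) with h | h
    · exact hB h
    · exact hU h
  by_cases hE : cl c ∈ E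
  · exact W.of_five (n := 0) (h5.mono (by
      intro z hz
      rcases Finset.mem_insert.1 hz with rfl | hz
      · exact Finset.mem_union_right _ hE
      · exact Finset.mem_union_left _ hz))
  · exact ⟨cl c, by simp [hA, hE], hcR, Or.inl (h5.mono (Finset.insert_subset_insert _ Finset.subset_union_left))⟩

/-- After a four of First completed at `c`, any other reply loses. -/
theorem four_win {n : ℕ} {A E R : Finset Cell} {c s : Cell} (h5 : Five (insert c A)) (hcA : c ∉ A) (hcR : c ∉ R)
    (hs : s ≠ c) : W (n + 1) (A ∪ E) (insert s R) := by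
  by_cases hE : c ∈ E
  · exact W.of_five (h5.mono (by
      intro z hz
      rcases Finset.mem_insert.1 hz with rfl | hz
      · exact Finset.mem_union_right _ hE
      · exact Finset.mem_union_left _ hz))
  · refine ⟨c, by simp [hcA, hE], ?_, Or.inl (h5.mono (Finset.insert_subset_insert _ Finset.subset_union_left))⟩
    intro h
    rcases Finset.mem_insert.1 h with h | h
    · exact hs h.symm
    · exact hcR h

theorem nodeOK_d (m w c w2 c2 : ℕ) : NodeOK (.d m w c w2 c2) := by
  intro X j N I DR acc A B hX hj hF E U R hC hR hdis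
  have h1 := (nod_eq (b := false) (r := grd (fre X m) (fD m w c w2 c2 X j (plA X m))) hF).2
  obtain ⟨hf, h2⟩ := grd_eq (b := fre X m) h1
  obtain ⟨hg, h3⟩ := grd_eq (b := Bool.and (Bool.and (fiv (plA X m) w c) (fiv (plA X m) w2 c2))
    (Bool.and (Bool.not (Nat.beq c c2)) (saf (plA X m)))) h2
  obtain ⟨hg1, hg2⟩ := andb hg
  obtain ⟨hf1, hf2⟩ := andb hg1
  obtain ⟨hne, hs⟩ := andb hg2
  have hP := res_eq h3
  obtain ⟨hm, hmi, hmA, hmB⟩ := fre_spec hX hf
  have hX1 := hX.plA hf
  obtain ⟨hc, hc4, hc5⟩ := fiv_spec hX1 hf1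
  obtain ⟨hc', hc4', hc5'⟩ := fiv_spec hX1 hf2
  obtain ⟨hcA, hcB⟩ := hX1.four hc hc4
  obtain ⟨hcA', hcB'⟩ := hX1.four hc' hc4'
  have hYlt : Nat.lor (bit m) (Nat.lor (bit c) (bit c2)) < 2 ^ 6144 :=
    or_lt (bit_lt hm) (or_lt (bit_lt hc) (bit_lt hc'))
  have hmU : cl m ∉ U := hC.not_mem fun i hi => by
    rw [hP]; exact zn_or' (zn_cell hm hYlt hj hi (tb_or (bit_self m)))
  have hcU : cl c ∉ U := hC.not_mem fun i hi => by
    rw [hP]; exact zn_or' (zn_cell hc hYlt hj hi (tb_or' (tb_or (bit_self c))))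
  have hcU' : cl c2 ∉ U := hC.not_mem fun i hi => by
    rw [hP]; exact zn_or' (zn_cell hc' hYlt hj hi (tb_or' (tb_or' (bit_self c2))))
  have hnR : ∀ x, x ∉ B → x ∉ U → x ∉ R := fun x h1 h2 h => by
    rcases Finset.mem_union.1 (hR h) with h | h
    · exact h1 h
    · exact h2 h
  change W (1 + 1) (A ∪ E) R
  apply W.play hmA (hnR _ hmB hmU) hdis
  intro E' hE' hdis' s hsA hsR
  refine ⟨safety hX1 hj hs (P := N >>> 64) ?_ (hC.mono (fun _ _ _ h => h) (Finset.subset_insert _ _) hE') hR hdis' hsA, ?_⟩
  · intro i hi x hx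
    rw [hP]; exact zn_or hx
  · by_cases hsc : s = cl c
    · apply four_win (n := 0) hc5' hcA' (hnR _ hcB' hcU')
      intro h
      have : c = c2 := cl_inj (hsc.symm.trans h)
      rw [this] at hne
      simp at hne
    · exact four_win (n := 0) hc5 hcA (hnR _ hcB hcU) hsc

theorem nodeOK_r (m w c : ℕ) (k : T) (ih : NodeOK k) : NodeOK (.r m w c k) := by
  intro X j N I DR acc A B hX hj hF E U R hC hR hdis
  have h1 := (nod_eq (b := false) (r := grd (fre X m) (fR m w c (F k) X j (plA X m))) hF).2
  obtain ⟨hf, h2⟩ := grd_eq (b := fre X m) h1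
  obtain ⟨hg, h3⟩ := grd_eq (b := Bool.and (Bool.and (fiv (plA X m) w c) (fre (plA X m) c)) (saf (plA X m))) h2
  obtain ⟨hg1, hs⟩ := andb hg
  obtain ⟨hf1, hfc⟩ := andb hg1
  obtain ⟨p, hk, h4⟩ := bnd_eq (r := F k false (Nat.lor (plA X m) (bit c)) j 0 0 0) h3
  have hP := res_eq h4
  obtain ⟨hm, hmi, hmA, hmB⟩ := fre_spec hX hf
  have hX1 := hX.plA hf
  obtain ⟨hc, hc4, hc5⟩ := fiv_spec hX1 hf1
  obtain ⟨hcA, hcB⟩ := hX1.four hc hc4
  have hX2 := hX1.plB hfc
  have hYlt : Nat.lor (bit m) (bit c) < 2 ^ 6144 := or_lt (bit_lt hm) (bit_lt hc)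
  have hmU : cl m ∉ U := hC.not_mem fun i hi => by
    rw [hP]; exact zn_or' (zn_or' (zn_cell hm hYlt hj hi (tb_or (bit_self m))))
  have hcU : cl c ∉ U := hC.not_mem fun i hi => by
    rw [hP]; exact zn_or' (zn_or' (zn_cell hc hYlt hj hi (tb_or' (bit_self c))))
  have hnR : ∀ x, x ∉ B → x ∉ U → x ∉ R := fun x h1 h2 h => by
    rcases Finset.mem_union.1 (hR h) with h | h
    · exact h1 h
    · exact h2 h
  change W ((ht k + 1) + 1) (A ∪ E) R
  apply W.play hmA (hnR _ hmB hmU) hdis
  intro E' hE' hdis' s hsA hsR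
  have hC' := hC.mono (P' := N >>> 64) (fun _ _ _ h => h) (Finset.subset_insert (cl m) A) hE'
  refine ⟨safety hX1 hj hs (P := N >>> 64) ?_ hC' hR hdis' hsA, ?_⟩
  · intro i hi x hx
    rw [hP]; exact zn_or' (zn_or hx)
  · by_cases hsc : s = cl c
    · apply W.succ
      apply ih _ j p 0 0 0 _ _ hX2 hj hk E' U (insert s R)
      · apply hC'.mono (fun i hi x hx => ?_) (Finset.Subset.refl _) (Finset.Subset.refl _)
        rw [hP]; exact zn_or hx
      · rw [hsc]
        intro z hz
        rcases Finset.mem_insert.1 hz with rfl | hz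
        · exact Finset.mem_union_left _ (Finset.mem_insert_self _ _)
        · rcases Finset.mem_union.1 (hR hz) with h | h
          · exact Finset.mem_union_left _ (Finset.mem_insert_of_mem h)
          · exact Finset.mem_union_right _ h
      · rw [Finset.disjoint_insert_left]
        exact ⟨hsA, hdis'⟩
    · exact four_win (n := ht k) hc5 hcA (hnR _ hcB hcU) hsc

/-- Second to move at a quiet node. -/
theorem quiet_WS (m : ℕ) (a : T) (iha : AltOK a) {X j N : ℕ} {A B : Finset Cell} (hX1 : Rep X A B) (hj : j ≤ 3)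
    (hF : fQ m (F a) j X = N + 1) {E U R : Finset Cell} (hC : Cov j (N >>> 64) A E U) (hR : R ⊆ B ∪ U)
    (hdis : Disjoint R (A ∪ E)) : WS (ht a) (A ∪ E) R := by
  obtain ⟨hs, h3⟩ := grd_eq (b := saf X) hF
  have hacc := mono_acc a h3
  intro s hsA hsR
  refine ⟨safety hX1 hj hs (P := N >>> 64) ?_ hC hR hdis hsA, ?_⟩
  · intro i hi x hx
    exact ⟨hx.1, hacc _ (tb_or hx.2)⟩
  · have := iha X j N ones 0 _ A B hX1 hj h3 E U R hC hR hdis 0 ?_ s hsA hsR
    · simpa using this
    · intro s _ _ h
      rcases h with h | h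
      · rw [ones_tb (yi_lt B s)] at h; exact absurd h (by simp)
      · rw [Nat.zero_testBit] at h; exact absurd h (by simp)

theorem quiet_acc (m : ℕ) (a : T) {X j N : ℕ} (hF : fQ m (F a) j X = N + 1) (hm : m < 1024) (hj : j ≤ 3) {i : ℕ} (hi : i < j) :
    zn (N >>> 64) i (cl m) := by
  obtain ⟨hs, h3⟩ := grd_eq (b := saf X) hF
  have h := zn_cell hm (bit_lt hm) hj hi (bit_self m)
  exact ⟨h.1, mono_acc a h3 _ (tb_or' h.2)⟩

theorem nodeOK_q (m : ℕ) (a : T) (iha : AltOK a) : NodeOK (.q m a) := by
  intro X j N I DR acc A B hX hj hF E U R hC hR hdis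
  have h1 := (nod_eq (b := false) (r := grd (fre X m) (fQ m (F a) j (plA X m))) hF).2
  obtain ⟨hf, h2⟩ := grd_eq (b := fre X m) h1
  obtain ⟨hm, hmi, hmA, hmB⟩ := fre_spec hX hf
  have hX1 := hX.plA hf
  have hmU : cl m ∉ U := hC.not_mem fun i hi => quiet_acc m a h2 hm hj hi
  have hmR : cl m ∉ R := fun h => by
    rcases Finset.mem_union.1 (hR h) with h | h
    · exact hmB h
    · exact hmU h
  change W (ht a + 1) (A ∪ E) R
  apply W.play hmA hmR hdis
  intro E' hE' hdis'
  exact quiet_WS m a iha hX1 hj h2 (hC.mono (fun _ _ _ h => h) (Finset.subset_insert _ _) hE') hR hdis'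

theorem altOK_e : AltOK .e := by
  intro X j N I DR acc A B hX hj hF E U R hC hR hdis n0 H s hsA hsR
  have h1 := (grd_eq (b := true) (r := fE X I DR acc) hF).2
  obtain ⟨h2, -⟩ := grd_eq (b := Nat.beq (Nat.lor (Nat.land I (emp X)) DR) DR) (r := res X acc) h1
  have h3 := Nat.eq_of_beq_eq_true h2
  change (I &&& emp X) ||| DR = DR at h3
  have he := emp_spec (yi_lt B s) (yi_dg hX (s := s) (fun h => hsA (Finset.mem_union_left _ h)))
  apply W.le (le_max_left _ _)
  apply H s hsA hsR
  by_cases hI : I.testBit (6 * yi B s) = true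
  · right
    rw [← h3, Nat.testBit_or, Nat.testBit_and, hI, he]; rfl
  · left; simpa using hI

theorem zero_not_inr : ¬ Inr (cl 0) := by decide

theorem altOK_a (z : ℕ) (D : List ℕ) (k n : T) (ihk : NodeOK k) (ihn : AltOK n) : AltOK (.a z D k n) := by
  intro X j N I DR acc A B hX hj hF E U R hC hR hdis n0 H
  have h1 := (grd_eq (b := true) (r := grd (dOk X (bits D)) (fA z (bits D) (F k) (F n) X j I DR acc)) hF).2
  obtain ⟨hO, h2⟩ := grd_eq (b := dOk X (bits D)) (r := fA z (bits D) (F k) (F n) X j I DR acc) h1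
  obtain ⟨hX2, hAD, hBD⟩ := hX.lor (dg01_bits D) hO
  have hsub : ∀ s U', insert s R ⊆ (B ∪ cells (bits D)) ∪ U' ↔ (s ∈ (B ∪ cells (bits D)) ∪ U' ∧ R ⊆ (B ∪ cells (bits D)) ∪ U') :=
    fun s U' => Finset.insert_subset_iff
  have hRsub : ∀ U', U ⊆ U' → R ⊆ (B ∪ cells (bits D)) ∪ U' := by
    intro U' hU z hz
    rcases Finset.mem_union.1 (hR hz) with h | h
    · exact Finset.mem_union_left _ (Finset.mem_union_left _ h)
    · exact Finset.mem_union_right _ (hU h)
  have hdis' : ∀ s, s ∉ A ∪ E → Disjoint (insert s R) (A ∪ E) := by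
    intro s hs
    rw [Finset.disjoint_insert_left]; exact ⟨hs, hdis⟩
  cases z with
  | zero =>
    obtain ⟨p, hk, h3⟩ := bnd_eq (r := F k false (Nat.lor X (bits D)) j 0 0 0)
      (k := fun p => F n true X j I (Nat.lor DR (bits D)) (Nat.lor acc (Nat.shiftRight p 64))) h2
    have hacc := mono_acc n h3
    have hH : ∀ s, s ∉ A ∪ E → s ∉ R → (I.testBit (6 * yi B s) = false ∨ (Nat.lor DR (bits D)).testBit (6 * yi B s) = true) →
        W (max n0 (ht k)) (A ∪ E) (insert s R) := by
      intro s hsA hsR hs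
      by_cases hold : I.testBit (6 * yi B s) = false ∨ DR.testBit (6 * yi B s) = true
      · exact W.le (le_max_left _ _) (H s hsA hsR hold)
      · have hD : (bits D).testBit (6 * yi B s) = true := by
          rcases hs with hs | hs
          · exact absurd (Or.inl hs) hold
          · change (DR ||| bits D).testBit _ = true at hs
            rw [Nat.testBit_or, Bool.or_eq_true] at hs
            rcases hs with hs | hs
            · exact absurd (Or.inr hs) hold
            · exact hs
        have hin := (dOk_inr hO hD).2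
        have hy : Inb s ∧ s ∉ B := by
          by_contra hc
          unfold yi at hin
          rw [if_neg hc] at hin
          exact zero_not_inr hin
        have hsD : s ∈ cells (bits D) := by
          rw [mem_cells]
          refine ⟨hy.1, ?_⟩
          unfold yi at hD
          rwa [if_pos hy] at hD
        apply W.le (le_max_right _ _)
        apply ihk _ j p 0 0 0 A _ hX2 hj hk E U
        · exact hC.mono (fun i hi x hx => ⟨hx.1, hacc _ (tb_or' hx.2)⟩) (Finset.Subset.refl _) (Finset.Subset.refl _)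
        · rw [hsub]
          exact ⟨Finset.mem_union_left _ (Finset.mem_union_right _ hsD), hRsub U (Finset.Subset.refl _)⟩
        · exact hdis' s hsA
    have := ihn X j N I _ _ A B hX hj h3 E U R hC hR hdis _ hH
    change ∀ s, s ∉ A ∪ E → s ∉ R → W (max n0 (max (ht k) (ht n))) (A ∪ E) (insert s R)
    rwa [← max_assoc]
  | succ z =>
    obtain ⟨hj2, h3⟩ := grd_eq (b := Nat.ble j 2) h2
    have hj2 := Nat.le_of_ble_eq_true hj2
    obtain ⟨p, hk, h4⟩ := bnd_eq (r := F k false (Nat.lor X (bits D)) (Nat.succ j) 0 0 0) h3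
    have hacc := mono_acc n h4
    have hZ : Zle j (p >>> 64) (N >>> 64) := by
      intro i hi x hx
      refine ⟨hx.1, hacc _ (tb_or' ?_)⟩
      change (p >>> 64 &&& mask j).testBit _ = true
      rw [Nat.testBit_and, hx.2, Bool.true_and]
      have hlt : 6144 * i + 6 * ix x < 6144 * j := by
        have := ix_lt hx.1
        have : 6144 * (i + 1) ≤ 6144 * j := Nat.mul_le_mul_left _ hi
        omega
      change (1 <<< (6144 * j) - 1).testBit _ = true
      rw [Nat.one_shiftLeft, Nat.testBit_two_pow_sub_one]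
      simpa using hlt
    have hH : ∀ s, s ∉ A ∪ E → s ∉ R →
        ((Nat.land I (Nat.xor (Nat.shiftRight p (Nat.add 64 (Nat.mul 6144 j)))
          (Nat.land (Nat.shiftRight p (Nat.add 64 (Nat.mul 6144 j))) (bits D)))).testBit (6 * yi B s) = false ∨
          DR.testBit (6 * yi B s) = true) → W (max n0 (ht k)) (A ∪ E) (insert s R) := by
      intro s hsA hsR hs
      by_cases hold : I.testBit (6 * yi B s) = false ∨ DR.testBit (6 * yi B s) = true
      · exact W.le (le_max_left _ _) (H s hsA hsR hold)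
      · apply W.le (le_max_right _ _)
        have hI : I.testBit (6 * yi B s) = true := by
          by_contra hc; exact hold (Or.inl (by simpa using hc))
        have hs1 : (p >>> (64 + 6144 * j)).testBit (6 * yi B s) = false ∨ (bits D).testBit (6 * yi B s) = true := by
          rcases hs with hs | hs
          · change (I &&& (p >>> (64 + 6144 * j) ^^^ (p >>> (64 + 6144 * j) &&& bits D))).testBit _ = false at hs
            rw [Nat.testBit_and, hI, Bool.true_and, Nat.testBit_xor, Nat.testBit_and] at hs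
            by_cases hp : (p >>> (64 + 6144 * j)).testBit (6 * yi B s) = true
            · right
              rw [hp] at hs
              by_contra hc
              rw [Bool.not_eq_true] at hc
              rw [hc] at hs
              simp at hs
            · left; simpa using hp
          · exact absurd (Or.inr hs) hold
        by_cases hy : Inb s ∧ s ∉ B
        · have hyi : yi B s = ix s := if_pos hy
          rw [hyi] at hs1
          by_cases hD : (bits D).testBit (6 * ix s) = true
          · have hsD : s ∈ cells (bits D) := mem_cells.2 ⟨hy.1, hD⟩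
            apply ihk _ (j + 1) p 0 0 0 A _ hX2 (by omega) hk E U _ (hC.step0 hZ)
            · rw [hsub]
              exact ⟨Finset.mem_union_left _ (Finset.mem_union_right _ hsD), hRsub U (Finset.Subset.refl _)⟩
            · exact hdis' s hsA
          · have hz : ¬ zn (p >>> 64) j s := by
              intro hz
              have h5 := hz.2
              rw [Nat.testBit_shiftRight] at h5
              rcases hs1 with h6 | h6
              · rw [Nat.testBit_shiftRight, show 64 + 6144 * j + 6 * ix s = 64 + (6144 * j + 6 * ix s) by ring, h5] at h6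
                exact absurd h6 (by simp)
              · exact hD h6
            apply ihk _ (j + 1) p 0 0 0 A _ hX2 (by omega) hk E (insert s U) _ (hC.step hZ hz)
            · rw [hsub]
              exact ⟨Finset.mem_union_right _ (Finset.mem_insert_self _ _), hRsub _ (Finset.subset_insert _ _)⟩
            · exact hdis' s hsA
        · by_cases hB : s ∈ B
          · apply ihk _ (j + 1) p 0 0 0 A _ hX2 (by omega) hk E U _ (hC.step0 hZ)
            · rw [hsub]
              exact ⟨Finset.mem_union_left _ (Finset.mem_union_left _ hB), hRsub U (Finset.Subset.refl _)⟩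
            · exact hdis' s hsA
          · have hz : ¬ zn (p >>> 64) j s := fun hz => hy ⟨hz.1, hB⟩
            apply ihk _ (j + 1) p 0 0 0 A _ hX2 (by omega) hk E (insert s U) _ (hC.step hZ hz)
            · rw [hsub]
              exact ⟨Finset.mem_union_right _ (Finset.mem_insert_self _ _), hRsub _ (Finset.subset_insert _ _)⟩
            · exact hdis' s hsA
    have := ihn X j N _ _ _ A B hX hj h4 E U R hC hR hdis _ hH
    change ∀ s, s ∉ A ∪ E → s ∉ R → W (max n0 (max (ht k) (ht n))) (A ∪ E) (insert s R)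
    rwa [← max_assoc]

theorem sound (t : T) : NodeOK t ∧ AltOK t := by
  induction t with
  | e =>
    refine ⟨?_, altOK_e⟩
    intro X j N I DR acc A B _ _ h
    exact absurd (grd_eq (b := false) (r := fE X I DR acc) h).1 (by simp)
  | v w c =>
    refine ⟨nodeOK_v w c, ?_⟩
    intro X j N I DR acc A B _ _ h
    exact absurd (nod_eq (b := true) (r := fV w c X j) h).1 (by simp)
  | d m w c w2 c2 =>
    refine ⟨nodeOK_d m w c w2 c2, ?_⟩
    intro X j N I DR acc A B _ _ h
    exact absurd (nod_eq (b := true) (r := grd (fre X m) (fD m w c w2 c2 X j (plA X m))) h).1 (by simp)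
  | r m w c k ih =>
    refine ⟨nodeOK_r m w c k ih.1, ?_⟩
    intro X j N I DR acc A B _ _ h
    exact absurd (nod_eq (b := true) (r := grd (fre X m) (fR m w c (F k) X j (plA X m))) h).1 (by simp)
  | q m a ih =>
    refine ⟨nodeOK_q m a ih.2, ?_⟩
    intro X j N I DR acc A B _ _ h
    exact absurd (nod_eq (b := true) (r := grd (fre X m) (fQ m (F a) j (plA X m))) h).1 (by simp)
  | a z D k n ihk ihn =>
    refine ⟨?_, altOK_a z D k n ihk.1 ihn.2⟩
    intro X j N I DR acc A B _ _ h
    exact absurd (grd_eq (b := false) (r := grd (dOk X (bits D)) (fA z (bits D) (F k) (F n) X j I DR acc)) h).1 (by simp)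

end Pool.Agent.H79.Five
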