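import Pool.Agent.H83.Five.Fin
import Pool.Agent.H79.Five.C.P10
import Pool.Agent.H79.Five.C.P11
import Pool.Agent.H79.Five.C.P20
import Pool.Agent.H79.Five.C.P21
import Pool.Agent.H79.Five.C.P22
import Pool.Agent.H79.Five.C.P31
import Pool.Agent.H79.Five.C.P32
import Pool.Agent.H79.Five.C.P33
import Pool.Agent.H79.Five.C.P41
import Pool.Agent.H79.Five.C.P42
import Pool.Agent.H79.Five.C.P44
import Pool.Agent.H79.Five.C.P52
import Pool.Agent.H79.Five.C.P54
import Pool.Agent.H79.Five.C.P55

set_option autoImplicit false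
set_option linter.all false
set_option maxRecDepth 10000

/-! The replies at distance at most `5`. -/

namespace Pool.Agent.H79.Five

theorem nk14 : nk [494, 526, 497, 465, 557, 466, 562, 594, 467, 435, 619, 564, 372, 650] 5 = true := by
  decide +kernel

theorem near_S1 : ∃ n, ∀ d : Cell, d ≠ (0, 0) → 0 ≤ d.2 → d.2 ≤ d.1 → d.1 ≤ ((5 : ℕ) : ℤ) →
    W n {((0 : ℤ), (0 : ℤ))} {d} := by
  refine near _ 5 ?_ nk14
  intro a ha
  simp only [List.mem_cons, List.not_mem_nil, or_false] at ha
  rcases ha with rfl | rfl | rfl | rfl | rfl | rfl | rfl | rfl | rfl | rfl | rfl | rfl | rfl | rfl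
  · exact pc10
  · exact pc11
  · exact pc20
  · exact pc21
  · exact pc22
  · exact pc31
  · exact pc32
  · exact pc33
  · exact pc41
  · exact pc42
  · exact pc44
  · exact pc52
  · exact pc54
  · exact pc55

end Pool.Agent.H79.Five
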