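import Pool.Agent.H79.Five.Game

set_option autoImplicit false

/-! From `W N ∅ ∅` to strategies. -/

namespace Pool.Agent.H79.Five

/-- A winning move. -/
def Mv (n : ℕ) (A B : Finset Cell) (m : Cell) : Prop :=
  m ∉ A ∧ m ∉ B ∧ (Five (insert m A) ∨
      ∀ s, s ∉ insert m A → s ∉ B → ¬ Five (insert s B) ∧ W n (insert m A) (insert s B))

def Ev (l : List Cell) : Finset Cell := (Finset.range (l.length / 2)).image fun i => l.getD (2 * i) 0
def Od (l : List Cell) : Finset Cell := (Finset.range (l.length / 2)).image fun i => l.getD (2 * i + 1) 0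

open Classical in
noncomputable def pick (n : ℕ) (A B : Finset Cell) : Cell :=
  if h : ∃ m, Mv n A B m then h.choose else (exists_free A B).choose

noncomputable def strat (N : ℕ) (l : List Cell) : Cell := pick (N - l.length / 2 - 1) (Ev l) (Od l)

theorem pick_spec (n : ℕ) (A B : Finset Cell) :
    (pick n A B ∉ A ∧ pick n A B ∉ B) ∧ (W (n + 1) A B → Mv n A B (pick n A B)) := by
  unfold pick
  split_ifs with h
  · exact ⟨⟨h.choose_spec.1, h.choose_spec.2.1⟩, fun _ => h.choose_spec⟩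
  · exact ⟨(exists_free A B).choose_spec, fun hW => absurd hW h⟩

def As (p : ℕ → Cell) (k : ℕ) : Finset Cell := (Finset.range k).image fun i => p (2 * i)
def Bs (p : ℕ → Cell) (k : ℕ) : Finset Cell := (Finset.range k).image fun i => p (2 * i + 1)

theorem As_succ (p : ℕ → Cell) (k : ℕ) : As p (k + 1) = insert (p (2 * k)) (As p k) := by
  simp [As, Finset.range_add_one, Finset.image_insert]

theorem Bs_succ (p : ℕ → Cell) (k : ℕ) : Bs p (k + 1) = insert (p (2 * k + 1)) (Bs p k) := by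
  simp [Bs, Finset.range_add_one, Finset.image_insert]

theorem Ev_ofFn (p : ℕ → Cell) (k : ℕ) : Ev (List.ofFn fun i : Fin (2 * k) => p i) = As p k := by
  unfold Ev As
  rw [List.length_ofFn, Nat.mul_div_cancel_left _ (by norm_num)]
  apply Finset.image_congr
  intro i hi
  have hi' : i < k := by simpa using hi
  simp only [List.getD_eq_getElem?_getD]
  rw [List.getElem?_eq_getElem (by simp; omega)]
  simp

theorem Od_ofFn (p : ℕ → Cell) (k : ℕ) : Od (List.ofFn fun i : Fin (2 * k) => p i) = Bs p k := by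
  unfold Od Bs
  rw [List.length_ofFn, Nat.mul_div_cancel_left _ (by norm_num)]
  apply Finset.image_congr
  intro i hi
  have hi' : i < k := by simpa using hi
  simp only [List.getD_eq_getElem?_getD]
  rw [List.getElem?_eq_getElem (by simp; omega)]
  simp

theorem strat_spec (N k : ℕ) (p : ℕ → Cell) :
    (strat N (List.ofFn fun i : Fin (2 * k) => p i) ∉ As p k ∧
      strat N (List.ofFn fun i : Fin (2 * k) => p i) ∉ Bs p k) ∧
    ∀ n, N = k + (n + 1) → W (n + 1) (As p k) (Bs p k) →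
      Mv n (As p k) (Bs p k) (strat N (List.ofFn fun i : Fin (2 * k) => p i)) := by
  unfold strat
  rw [Ev_ofFn, Od_ofFn, List.length_ofFn, Nat.mul_div_cancel_left _ (by norm_num)]
  refine ⟨(pick_spec _ _ _).1, fun n hn hW => ?_⟩
  have : N - k - 1 = n := by omega
  rw [this]
  exact (pick_spec _ _ _).2 hW

theorem exists_win {N : ℕ} (hN : W N ∅ ∅) (p : ℕ → Cell)
    (hp : ∀ k : ℕ, p (2 * k) = strat N (List.ofFn fun i : Fin (2 * k) => p i))
    (hq : ∀ j i : ℕ, i < 2 * j + 1 → p i ≠ p (2 * j + 1)) :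
    ∃ m, m < N ∧ Five (As p (m + 1)) ∧ ¬ Five (Bs p m) := by
  by_contra hcon
  push Not at hcon
  have key : ∀ k, k ≤ N → W (N - k) (As p k) (Bs p k) ∧ ¬ Five (Bs p k) := by
    intro k
    induction k with
    | zero =>
      intro _
      refine ⟨by simpa [As, Bs] using hN, ?_⟩
      rintro ⟨a, d, _, h⟩
      simpa [Bs] using h 0 (by norm_num)
    | succ k ih =>
      intro hk
      obtain ⟨hW, h5⟩ := ih (by omega)
      obtain ⟨n, hn⟩ : ∃ n, N = k + (n + 1) := ⟨N - k - 1, by omega⟩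
      have hWn : W (n + 1) (As p k) (Bs p k) := by
        have : N - k = n + 1 := by omega
        rwa [this] at hW
      have hm := (strat_spec N k p).2 n hn hWn
      rw [← hp k] at hm
      obtain ⟨-, -, hm⟩ := hm
      rw [← As_succ] at hm
      rcases hm with hm | hm
      · exact absurd (hcon k (by omega) hm) (by simpa using h5)
      · have hfree : ∀ i, i < 2 * k + 1 → p (2 * k + 1) ≠ p i := fun i hi h => hq k i hi h.symm
        have h1 : p (2 * k + 1) ∉ As p (k + 1) := by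
          simp only [As, Finset.mem_image, Finset.mem_range, not_exists, not_and]
          intro i hi h
          exact hfree (2 * i) (by omega) h.symm
        have h2 : p (2 * k + 1) ∉ Bs p k := by
          simp only [Bs, Finset.mem_image, Finset.mem_range, not_exists, not_and]
          intro i hi h
          exact hfree (2 * i + 1) (by omega) h.symm
        have h3 := hm _ h1 h2
        rw [← Bs_succ] at h3
        have : N - (k + 1) = n := by omega
        rw [this]
        exact ⟨h3.2, h3.1⟩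
  have := (key N le_rfl).1
  rw [Nat.sub_self] at this
  exact this

theorem fresh (N : ℕ) (p : ℕ → Cell)
    (hp : ∀ k : ℕ, p (2 * k) = strat N (List.ofFn fun i : Fin (2 * k) => p i)) (k i : ℕ) (hi : i < 2 * k) :
    p i ≠ p (2 * k) := by
  intro h
  have := (strat_spec N k p).1
  rw [← hp k] at this
  rcases Nat.even_or_odd' i with ⟨c, hc | hc⟩
  · apply this.1
    simp only [As, Finset.mem_image, Finset.mem_range]
    exact ⟨c, by omega, by rw [← hc]; exact h⟩
  · apply this.2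
    simp only [Bs, Finset.mem_image, Finset.mem_range]
    exact ⟨c, by omega, by rw [← hc]; exact h⟩

theorem final1 {N : ℕ} (hN : W N ∅ ∅) :
    ∃ σ : List (ℤ × ℤ) → ℤ × ℤ,
      ∀ p : ℕ → ℤ × ℤ,
        (∀ m : ℕ, p (2 * m) = σ (List.ofFn (fun i : Fin (2 * m) => p i))) →
        (∀ m i : ℕ, i < 2 * m + 1 → p i ≠ p (2 * m + 1)) →
        (∀ m i : ℕ, i < 2 * m → p i ≠ p (2 * m)) ∧
        ∃ n : ℕ,
          (∃ a d : ℤ × ℤ,
              d ∈ ({((1 : ℤ), (0 : ℤ)), ((0 : ℤ), (1 : ℤ)), ((1 : ℤ), (1 : ℤ)),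
                    ((1 : ℤ), (-1 : ℤ))} : Finset (ℤ × ℤ)) ∧
              ∀ k : ℕ, k < 5 → ∃ i : ℕ, i ≤ n ∧ p (2 * i) = a + (k : ℤ) • d) ∧
          ¬ (∃ b e : ℤ × ℤ,
              e ∈ ({((1 : ℤ), (0 : ℤ)), ((0 : ℤ), (1 : ℤ)), ((1 : ℤ), (1 : ℤ)),
                    ((1 : ℤ), (-1 : ℤ))} : Finset (ℤ × ℤ)) ∧
              ∀ k : ℕ, k < 5 → ∃ i : ℕ, i < n ∧ p (2 * i + 1) = b + (k : ℤ) • e) := by
  refine ⟨strat N, fun p hp hq => ⟨fun m i hi => fresh N p hp m i hi, ?_⟩⟩
  obtain ⟨m, -, h5, hn5⟩ := exists_win hN p hp hq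
  refine ⟨m, ?_, ?_⟩
  · obtain ⟨a, d, hd, h⟩ := h5
    refine ⟨a, d, by simpa using hd, fun k hk => ?_⟩
    have := h k hk
    simp only [As, Finset.mem_image, Finset.mem_range] at this
    obtain ⟨i, hi, h⟩ := this
    exact ⟨i, by omega, h⟩
  · rintro ⟨b, e, he, h⟩
    apply hn5
    refine ⟨b, e, by simpa using he, fun k hk => ?_⟩
    obtain ⟨i, hi, h⟩ := h k hk
    simp only [Bs, Finset.mem_image, Finset.mem_range]
    exact ⟨i, hi, h⟩

theorem final2 {N : ℕ} (hN : W N ∅ ∅) :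
    ∃ N : ℕ, ∃ σ : List (ℤ × ℤ) → ℤ × ℤ,
      ∀ p : ℕ → ℤ × ℤ,
        (∀ k : ℕ, p (2 * k) = σ (List.ofFn (fun i : Fin (2 * k) => p (i : ℕ)))) →
        (∀ j i : ℕ, i < 2 * j + 1 → p i ≠ p (2 * j + 1)) →
        ∃ m : ℕ, m < N ∧
          (∀ k : ℕ, k ≤ m → ∀ i : ℕ, i < 2 * k → p i ≠ p (2 * k)) ∧
          (∃ a d : ℤ × ℤ,
              (d = (1, 0) ∨ d = (0, 1) ∨ d = (1, 1) ∨ d = (1, -1)) ∧
              ∀ t : ℤ, 0 ≤ t → t < 5 →
                ∃ i : ℕ, i ≤ m ∧ p (2 * i) = (a.1 + t * d.1, a.2 + t * d.2)) ∧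
          ¬ (∃ a d : ℤ × ℤ,
              (d = (1, 0) ∨ d = (0, 1) ∨ d = (1, 1) ∨ d = (1, -1)) ∧
              ∀ t : ℤ, 0 ≤ t → t < 5 →
                ∃ i : ℕ, i < m ∧ p (2 * i + 1) = (a.1 + t * d.1, a.2 + t * d.2)) := by
  refine ⟨N, strat N, fun p hp hq => ?_⟩
  obtain ⟨m, hm, h5, hn5⟩ := exists_win hN p hp hq
  refine ⟨m, hm, fun k _ i hi => fresh N p hp k i hi, ?_, ?_⟩
  · obtain ⟨a, d, hd, h⟩ := h5
    refine ⟨a, d, hd, fun t ht0 ht5 => ?_⟩
    lift t to ℕ using ht0
    have := h t (by omega)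
    simp only [As, Finset.mem_image, Finset.mem_range] at this
    obtain ⟨i, hi, h⟩ := this
    refine ⟨i, by omega, h.trans ?_⟩
    ext <;> simp
  · rintro ⟨b, e, he, h⟩
    apply hn5
    refine ⟨b, e, he, fun k hk => ?_⟩
    obtain ⟨i, hi, h⟩ := h k (by omega) (by omega)
    simp only [Bs, Finset.mem_image, Finset.mem_range]
    refine ⟨i, hi, h.trans ?_⟩
    ext <;> simp

end Pool.Agent.H79.Five
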