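import Pool.Agent.H79.Five.Fiv

set_option autoImplicit false
set_option linter.all false
set_option maxRecDepth 10000

/-! Soundness of the checker. -/

namespace Pool.Agent.H79.Five

/-- Cell `c` is in zone `i` of the pack `P`. -/
def zn (P i : ℕ) (c : Cell) : Prop := Inb c ∧ P.testBit (6144 * i + 6 * ix c) = true

/-- The unknown stones `U` of Second respect the zones of `P` at scope `j`. -/
structure Cov (j P : ℕ) (A E U : Finset Cell) : Prop where
  win : ∀ a d : Cell, IsDir d → Avo A a d → Avo E a d → ∀ k ≤ j,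
    (∀ i < k, ∀ l : ℕ, l < 5 → zn P i (a + (l : ℤ) • d)) → cnt U a d + k ≤ j
  cel : ∀ c ∈ U, ∃ i < j, ¬ zn P i c

def Zle (j P P' : ℕ) : Prop := ∀ i < j, ∀ c, zn P i c → zn P' i c

theorem Cov.mono {j P P' : ℕ} {A A' E E' U : Finset Cell} (h : Cov j P A E U) (hP : Zle j P' P)
    (hA : A ⊆ A') (hE : E ⊆ E') : Cov j P' A' E' U where
  win a d hd h1 h2 k hk h3 := h.win a d hd (fun l hl hc => h1 l hl (hA hc)) (fun l hl hc => h2 l hl (hE hc)) k hk
    (fun i hi l hl => hP i (by omega) _ (h3 i hi l hl))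
  cel c hc := by
    obtain ⟨i, hi, hz⟩ := h.cel c hc
    exact ⟨i, hi, fun h => hz (hP i hi c h)⟩

theorem Cov.step {j P P' : ℕ} {A E U : Finset Cell} (h : Cov j P A E U) (hP : Zle j P' P) {s : Cell}
    (hs : ¬ zn P' j s) : Cov (j + 1) P' A E (insert s U) where
  win a d hd h1 h2 k hk h3 := by
    rcases Nat.lt_or_ge j k with hj | hj
    · have hk' : k = j + 1 := by omega
      subst hk'
      have h4 := h.win a d hd h1 h2 j le_rfl (fun i hi l hl => hP i hi _ (h3 i (by omega) l hl))
      rw [cnt_insert_of_not]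
      · omega
      · intro l hl he
        exact hs (he ▸ h3 j (by omega) l hl)
    · have h4 := h.win a d hd h1 h2 k hj (fun i hi l hl => hP i (by omega) _ (h3 i hi l hl))
      have := cnt_insert hd U s a
      omega
  cel c hc := by
    rcases Finset.mem_insert.1 hc with rfl | hc
    · exact ⟨j, by omega, hs⟩
    · obtain ⟨i, hi, hz⟩ := h.cel c hc
      exact ⟨i, by omega, fun h => hz (hP i hi c h)⟩

theorem Cov.step0 {j P P' : ℕ} {A E U : Finset Cell} (h : Cov j P A E U) (hP : Zle j P' P) :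
    Cov (j + 1) P' A E U where
  win a d hd h1 h2 k hk h3 := by
    rcases Nat.lt_or_ge j k with hj | hj
    · have h4 := h.win a d hd h1 h2 j le_rfl (fun i hi l hl => hP i hi _ (h3 i (by omega) l hl))
      omega
    · have h4 := h.win a d hd h1 h2 k hj (fun i hi l hl => hP i (by omega) _ (h3 i hi l hl))
      omega
  cel c hc := by
    obtain ⟨i, hi, hz⟩ := h.cel c hc
    exact ⟨i, by omega, fun h => hz (hP i hi c h)⟩

theorem nd_spec {X j i : ℕ} {A B : Finset Cell} (h : Rep X A B) (hj : j ≤ 3) (hi : i < j) {a d : Cell}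
    (hd : IsDir d) (hA : Avo A a d) (hb : 4 + i ≤ cnt B a d + j) {l : ℕ} (hl : l < 5) :
    zn (nd X j) i (a + (l : ℤ) • d) := by
  have hc9 := fun hb => cel_win (t := 9) h (by norm_num) hd hA hb hl
  have hc10 := fun hb => cel_win (t := 10) h (by norm_num) hd hA hb hl
  have hc11 := fun hb => cel_win (t := 11) h (by norm_num) hd hA hb hl
  rw [← c9_eq] at hc9
  rw [← c10_eq] at hc10
  rw [← c11_eq] at hc11
  interval_cases j
  · omega
  · have hi0 : i = 0 := by omega
    subst hi0
    obtain ⟨h1, h2⟩ := hc9 (by omega)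
    refine ⟨h1, ?_⟩
    change (cel X c9).testBit _ = true
    rw [Nat.mul_zero, Nat.zero_add]; exact h2
  · interval_cases i
    · obtain ⟨h1, h2⟩ := hc10 (by omega)
      refine ⟨h1, ?_⟩
      change (cel X c10 ||| cel X c9 <<< 6144).testBit _ = true
      rw [Nat.mul_zero, Nat.zero_add, Nat.testBit_or, h2]; rfl
    · obtain ⟨h1, h2⟩ := hc9 (by omega)
      refine ⟨h1, ?_⟩
      change (cel X c10 ||| cel X c9 <<< 6144).testBit _ = true
      rw [Nat.mul_one, Nat.testBit_or, Nat.testBit_shiftLeft, Nat.add_sub_cancel_left, h2]; simp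
  · interval_cases i
    · obtain ⟨h1, h2⟩ := hc11 (by omega)
      refine ⟨h1, ?_⟩
      change (cel X c11 ||| (cel X c10 <<< 6144 ||| cel X c9 <<< 12288)).testBit _ = true
      rw [Nat.mul_zero, Nat.zero_add, Nat.testBit_or, h2]; rfl
    · obtain ⟨h1, h2⟩ := hc10 (by omega)
      refine ⟨h1, ?_⟩
      change (cel X c11 ||| (cel X c10 <<< 6144 ||| cel X c9 <<< 12288)).testBit _ = true
      rw [Nat.mul_one, Nat.testBit_or, Nat.testBit_or, Nat.testBit_shiftLeft, Nat.add_sub_cancel_left, h2]; simp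
    · obtain ⟨h1, h2⟩ := hc9 (by omega)
      refine ⟨h1, ?_⟩
      change (cel X c11 ||| (cel X c10 <<< 6144 ||| cel X c9 <<< 12288)).testBit _ = true
      rw [show 6144 * 2 + 6 * ix (a + (l : ℤ) • d) = 12288 + 6 * ix (a + (l : ℤ) • d) by ring,
        Nat.testBit_or, Nat.testBit_or, Nat.testBit_shiftLeft (i := 12288), Nat.add_sub_cancel_left, h2]; simp

theorem rep_spec {Y j i b : ℕ} (hY : Y < 2 ^ 6144) (hj : j ≤ 3) (hi : i < j) (hb : b < 6144)
    (h : Y.testBit b = true) : (Y * rep j).testBit (6144 * i + b) = true := by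
  have r1 : rep 1 = 1 := rfl
  have r2 : rep 2 = 1 + 2 ^ 6144 := by decide +kernel
  have r3 : rep 3 = 1 + 2 ^ 6144 * (1 + 2 ^ 6144) := by decide +kernel
  have s2 : ∀ Z k, (2 ^ 6144 * Z + Y).testBit k = if k < 6144 then Y.testBit k else Z.testBit (k - 6144) :=
    fun Z k => Nat.testBit_two_pow_mul_add Z hY k
  interval_cases j
  · omega
  · have hi0 : i = 0 := by omega
    subst hi0
    rw [r1, Nat.mul_one, Nat.mul_zero, Nat.zero_add]; exact h
  · rw [r2, show Y * (1 + 2 ^ 6144) = 2 ^ 6144 * Y + Y by ring, s2]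
    interval_cases i
    · rw [Nat.mul_zero, Nat.zero_add, if_pos hb]; exact h
    · rw [Nat.mul_one, if_neg (by omega), Nat.add_sub_cancel_left]; exact h
  · rw [r3, show Y * (1 + 2 ^ 6144 * (1 + 2 ^ 6144)) = 2 ^ 6144 * (2 ^ 6144 * Y + Y) + Y by ring, s2]
    interval_cases i
    · rw [Nat.mul_zero, Nat.zero_add, if_pos hb]; exact h
    · rw [Nat.mul_one, if_neg (by omega), Nat.add_sub_cancel_left, s2, if_pos hb]; exact h
    · rw [if_neg (by omega), show 6144 * 2 + b - 6144 = 6144 + b by omega, s2, if_neg (by omega), Nat.add_sub_cancel_left]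
      exact h

theorem bit_lt {c : ℕ} (hc : c < 1024) : bit c < 2 ^ 6144 := by
  rw [bit_eq, ← two6]
  exact Nat.pow_lt_pow_right (by norm_num) (by omega)

theorem bit_self (c : ℕ) : (bit c).testBit (6 * c) = true := by
  have := testBit_dg (bit c) c 0 (by norm_num)
  rw [dg_bit] at this
  simpa using this.symm

/-- The cell `c` used at scope `j` is in all zones. -/
theorem zn_cell {Y j i : ℕ} {c : ℕ} (hc : c < 1024) (hY : Y < 2 ^ 6144) (hj : j ≤ 3) (hi : i < j)
    (h : Y.testBit (6 * c) = true) : zn (Nat.mul Y (rep j)) i (cl c) := by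
  refine ⟨inb_cl hc, ?_⟩
  rw [ix_cl]
  exact rep_spec hY hj hi (by omega) h

/-- Second cannot have five after his next move. -/
theorem safety {X j P : ℕ} {A B E U R : Finset Cell} (h : Rep X A B) (hj : j ≤ 3) (hs : saf X = true)
    (hP : Zle j (nd X j) P) (hC : Cov j P A E U) (hR : R ⊆ B ∪ U) (hdis : Disjoint R (A ∪ E)) {s : Cell}
    (hsA : s ∉ A ∪ E) : ¬ Five (insert s R) := by
  intro h5
  obtain ⟨a, d, hd, hw, hcnt⟩ := cnt_five h5
  have hfree : ∀ k : ℕ, k < 5 → a + (k : ℤ) • d ∉ A ∪ E := by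
    intro k hk hc
    rcases Finset.mem_insert.1 (hw k hk) with h1 | h1
    · exact hsA (h1 ▸ hc)
    · exact Finset.disjoint_left.1 hdis h1 hc
  have hA : Avo A a d := fun k hk hc => hfree k hk (Finset.mem_union_left _ hc)
  have hE : Avo E a d := fun k hk hc => hfree k hk (Finset.mem_union_right _ hc)
  have hb := saf_spec h hs hd hA
  have h1 := cnt_insert hd R s a
  have h2 := cnt_mono hR a d
  have h3 := cnt_union B U a d
  have h4 : cnt B a d + cnt U a d ≤ 3 := by
    by_cases hbj : cnt B a d + j ≤ 3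
    · have := hC.win a d hd hA hE 0 (Nat.zero_le _) (fun i hi => by omega)
      omega
    · have := hC.win a d hd hA hE (cnt B a d + j - 3) (by omega) (fun i hi l hl =>
        hP i (by omega) _ (nd_spec h hj (by omega) hd hA (by omega) hl))
      omega
  omega

/-- Second to move. -/
def WS (n : ℕ) (A R : Finset Cell) : Prop := ∀ s, s ∉ A → s ∉ R → ¬ Five (insert s R) ∧ W n A (insert s R)

theorem W.play {n : ℕ} {A E R : Finset Cell} {m : Cell} (hA : m ∉ A) (hR : m ∉ R) (hdis : Disjoint R (A ∪ E))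
    (h : ∀ E', E ⊆ E' → Disjoint R (insert m A ∪ E') → WS n (insert m A ∪ E') R) : W (n + 1) (A ∪ E) R := by
  by_cases hE : m ∈ E
  · obtain ⟨y, hyA, hyR⟩ := exists_free (A ∪ E) R
    have he : insert y (A ∪ E) = insert m A ∪ insert y E := by
      ext z
      simp only [Finset.mem_insert, Finset.mem_union]
      constructor
      · rintro (h | h | h) <;> simp [h]
      · rintro ((h | h) | h | h)
        · exact Or.inr (Or.inr (h ▸ hE))
        · exact Or.inr (Or.inl h)
        · exact Or.inl h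
        · exact Or.inr (Or.inr h)
    refine ⟨y, hyA, hyR, Or.inr ?_⟩
    rw [he]
    apply h _ (Finset.subset_insert _ _)
    rw [← he, Finset.disjoint_insert_right]
    exact ⟨hyR, hdis⟩
  · have he : insert m (A ∪ E) = insert m A ∪ E := by rw [Finset.insert_union]
    refine ⟨m, by simp [hA, hE], hR, Or.inr ?_⟩
    rw [he]
    apply h _ (Finset.Subset.refl _)
    rw [← he, Finset.disjoint_insert_right]
    exact ⟨hR, hdis⟩

theorem Rep.plB {X c : ℕ} {A B : Finset Cell} (h : Rep X A B) (hf : fre X c = true) :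
    Rep (Nat.lor X (bit c)) A (insert (cl c) B) := by
  obtain ⟨hm, hin, hA, hB⟩ := fre_spec h hf
  have hd : ∀ n, dg (Nat.lor X (bit c)) n = if n = c then 5 else dg X n := by
    intro n
    change dg (X ||| bit c) n = _
    rw [dg_lor, dg_bit]
    split_ifs with h1
    · subst h1
      rw [h.dig n hm, if_neg hA, if_neg hB]; rfl
    · simp
  constructor
  · intro n hn
    rw [hd]
    by_cases h1 : n = c
    · subst h1
      rw [if_pos rfl, if_neg hA, if_pos (Finset.mem_insert_self _ _)]
    · have h2 : cl n ∈ insert (cl c) B ↔ cl n ∈ B := by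
        rw [Finset.mem_insert]
        exact ⟨fun h => h.resolve_left fun h => h1 (cl_inj h), Or.inr⟩
      rw [if_neg h1, h.dig n hn]
      simp only [h2]
  · intro n hn
    rw [hd, if_neg (by omega), h.out n hn]
  · exact h.inA
  · intro c' hc
    rcases Finset.mem_insert.1 hc with h4 | h4
    · exact h4 ▸ hin
    · exact h.inB c' h4
  · rw [Finset.disjoint_insert_right]
    exact ⟨hA, h.dis⟩

/-- Depth of a certificate. -/
def ht : T → ℕ
  | .e => 0
  | .v _ _ => 1
  | .d _ _ _ _ _ => 2
  | .r _ _ _ k => ht k + 2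
  | .q _ a => ht a + 1
  | .a _ _ k n => max (ht k) (ht n)

/-! Unfolding the checker. -/

theorem grd_eq {b : Bool} {r N : ℕ} (h : grd b r = N + 1) : b = true ∧ r = N + 1 := by
  cases b
  · exact absurd h (by change ¬ (0 = N + 1); omega)
  · exact ⟨rfl, h⟩

theorem nod_eq {b : Bool} {r N : ℕ} (h : nod b r = N + 1) : b = false ∧ r = N + 1 := by
  cases b
  · exact ⟨rfl, h⟩
  · exact absurd h (by change ¬ (0 = N + 1); omega)

theorem bnd_eq {r N : ℕ} {k : ℕ → ℕ} (h : bnd r k = N + 1) : ∃ p, r = p + 1 ∧ k p = N + 1 := by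
  cases r with
  | zero => exact absurd h (by change ¬ (0 = N + 1); omega)
  | succ p => exact ⟨p, rfl, h⟩

theorem res_eq {X P N : ℕ} (h : res X P = N + 1) : N >>> 64 = P := by
  change P <<< 64 + (X % 2305843009213693951 + 1) = N + 1 at h
  have h1 : X % 2305843009213693951 < 2305843009213693951 := Nat.mod_lt _ (by norm_num)
  rw [Nat.shiftLeft_eq] at h
  rw [Nat.shiftRight_eq_div_pow]
  omega

theorem andb {a b : Bool} (h : Bool.and a b = true) : a = true ∧ b = true := by
  cases a <;> cases b <;> simp_all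

end Pool.Agent.H79.Five
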