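import Pool.Agent.H79.Five.Board

set_option autoImplicit false
set_option linter.all false
set_option maxRecDepth 10000

/-! Windows. -/

namespace Pool.Agent.H79.Five

def IsDir (d : Cell) : Prop := d = (1, 0) ∨ d = (0, 1) ∨ d = (1, 1) ∨ d = (1, -1)

/-- Number of cells of the window `a, a + d, ..., a + 4 d` in `S`. -/
def cnt (S : Finset Cell) (a d : Cell) : ℕ := ((Finset.range 5).filter fun k : ℕ => a + (k : ℤ) • d ∈ S).card

/-- The window avoids `S`. -/
def Avo (S : Finset Cell) (a d : Cell) : Prop := ∀ k : ℕ, k < 5 → a + (k : ℤ) • d ∉ S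

theorem cnt_sum (S : Finset Cell) (a d : Cell) :
    cnt S a d = (if a + ((0 : ℕ) : ℤ) • d ∈ S then 1 else 0) + (if a + ((1 : ℕ) : ℤ) • d ∈ S then 1 else 0)
      + (if a + ((2 : ℕ) : ℤ) • d ∈ S then 1 else 0) + (if a + ((3 : ℕ) : ℤ) • d ∈ S then 1 else 0)
      + (if a + ((4 : ℕ) : ℤ) • d ∈ S then 1 else 0) := by
  unfold cnt
  rw [Finset.card_filter]
  simp only [Finset.sum_range_succ, Finset.sum_range_zero, zero_add]

theorem dir_inj {d : Cell} (hd : IsDir d) {a : Cell} {k l : ℕ} (h : a + (k : ℤ) • d = a + (l : ℤ) • d) : k = l := by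
  have h2 : (k : ℤ) • d = (l : ℤ) • d := add_left_cancel h
  rcases hd with rfl | rfl | rfl | rfl <;> simp [Prod.ext_iff] at h2 <;> omega

theorem cnt_insert {d : Cell} (hd : IsDir d) (S : Finset Cell) (s a : Cell) : cnt (insert s S) a d ≤ cnt S a d + 1 := by
  unfold cnt
  by_cases h : ∃ k : ℕ, k < 5 ∧ a + (k : ℤ) • d = s
  · obtain ⟨k, hk, hks⟩ := h
    have : ((Finset.range 5).filter fun l : ℕ => a + (l : ℤ) • d ∈ insert s S) ⊆
        insert k ((Finset.range 5).filter fun l : ℕ => a + (l : ℤ) • d ∈ S) := by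
      intro l hl
      rw [Finset.mem_filter] at hl
      rcases Finset.mem_insert.1 hl.2 with h | h
      · exact Finset.mem_insert.2 (Or.inl (dir_inj hd (h.trans hks.symm)))
      · exact Finset.mem_insert_of_mem (Finset.mem_filter.2 ⟨hl.1, h⟩)
    exact le_trans (Finset.card_le_card this) (Finset.card_insert_le _ _)
  · push Not at h
    have : ((Finset.range 5).filter fun l : ℕ => a + (l : ℤ) • d ∈ insert s S) =
        ((Finset.range 5).filter fun l : ℕ => a + (l : ℤ) • d ∈ S) := by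
      apply Finset.filter_congr
      intro l hl
      rw [Finset.mem_insert]
      exact ⟨fun h' => h'.resolve_left (h l (Finset.mem_range.1 hl)), Or.inr⟩
    rw [this]; omega

theorem cnt_insert_of_not {S : Finset Cell} {s a d : Cell} (h : ∀ k : ℕ, k < 5 → a + (k : ℤ) • d ≠ s) :
    cnt (insert s S) a d = cnt S a d := by
  unfold cnt
  congr 1
  apply Finset.filter_congr
  intro l hl
  rw [Finset.mem_insert]
  exact ⟨fun h' => h'.resolve_left (h l (Finset.mem_range.1 hl)), Or.inr⟩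

theorem cnt_mono {S T : Finset Cell} (h : S ⊆ T) (a d : Cell) : cnt S a d ≤ cnt T a d :=
  Finset.card_le_card fun k hk => by
    rw [Finset.mem_filter] at hk ⊢
    exact ⟨hk.1, h hk.2⟩

theorem cnt_union (S T : Finset Cell) (a d : Cell) : cnt (S ∪ T) a d ≤ cnt S a d + cnt T a d := by
  unfold cnt
  refine le_trans (Finset.card_le_card ?_) (Finset.card_union_le _ _)
  intro k hk
  rw [Finset.mem_filter] at hk
  rw [Finset.mem_union, Finset.mem_filter, Finset.mem_filter]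
  rcases Finset.mem_union.1 hk.2 with h | h
  · exact Or.inl ⟨hk.1, h⟩
  · exact Or.inr ⟨hk.1, h⟩

theorem cnt_five {S : Finset Cell} (h : Five S) : ∃ a d, IsDir d ∧ (∀ k : ℕ, k < 5 → a + (k : ℤ) • d ∈ S) ∧ cnt S a d = 5 := by
  obtain ⟨a, d, hd, h⟩ := h
  refine ⟨a, d, hd, h, ?_⟩
  unfold cnt
  rw [Finset.filter_true_of_mem]
  · simp
  · intro k hk; exact h k (Finset.mem_range.1 hk)

theorem cnt_pos {S : Finset Cell} {a d : Cell} (h : 1 ≤ cnt S a d) : ∃ k : ℕ, k < 5 ∧ a + (k : ℤ) • d ∈ S := by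
  unfold cnt at h
  obtain ⟨k, hk⟩ := Finset.card_pos.1 h
  rw [Finset.mem_filter, Finset.mem_range] at hk
  exact ⟨k, hk⟩

/-- A window through an inner cell lies on the board. -/
theorem win_inb {a d : Cell} (hd : IsDir d) {k : ℕ} (hk : k < 5) (h : Inr (a + (k : ℤ) • d)) (l : ℕ) (hl : l < 5) :
    Inb (a + (l : ℤ) • d) := by
  obtain ⟨x, y⟩ := a
  rcases hd with rfl | rfl | rfl | rfl <;>
    · unfold Inr at h; unfold Inb
      simp only [Prod.smul_mk, smul_eq_mul, Prod.mk_add_mk, mul_one, mul_zero, mul_neg] at h ⊢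
      omega

def pol (δ : ℕ) : ℕ := 1 + 64 ^ δ + 64 ^ (2 * δ) + 64 ^ (3 * δ) + 64 ^ (4 * δ)

def IsDel (δ : ℕ) : Prop := δ = 1 ∨ δ = 32 ∨ δ = 33 ∨ δ = 31

/-- Windows on the board as progressions of indices. -/
theorem win_idx {a d : Cell} (hd : IsDir d) (hin : ∀ k : ℕ, k < 5 → Inb (a + (k : ℤ) • d)) :
    ∃ δ e, IsDel δ ∧ e < 1024 ∧ 4 * δ ≤ e ∧
      ((∀ k : ℕ, k < 5 → ix (a + (k : ℤ) • d) + (4 - k) * δ = e) ∨ (∀ k : ℕ, k < 5 → ix (a + (k : ℤ) • d) + k * δ = e)) := by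
  obtain ⟨x, y⟩ := a
  have h0 := hin 0 (by norm_num)
  have h4 := hin 4 (by norm_num)
  rcases hd with rfl | rfl | rfl | rfl
  · refine ⟨1, ix ((x, y) + ((4 : ℕ) : ℤ) • (1, 0)), Or.inl rfl, ix_lt h4, ?_, Or.inl ?_⟩
    all_goals unfold Inb at h0 h4; unfold ix
    all_goals simp only [Prod.smul_mk, smul_eq_mul, Prod.mk_add_mk, mul_one, mul_zero, mul_neg] at h0 h4 ⊢
    · push_cast at *; omega
    · intro k hk; push_cast at *; omega
  · refine ⟨32, ix ((x, y) + ((4 : ℕ) : ℤ) • (0, 1)), Or.inr (Or.inl rfl), ix_lt h4, ?_, Or.inl ?_⟩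
    all_goals unfold Inb at h0 h4; unfold ix
    all_goals simp only [Prod.smul_mk, smul_eq_mul, Prod.mk_add_mk, mul_one, mul_zero, mul_neg] at h0 h4 ⊢
    · push_cast at *; omega
    · intro k hk; push_cast at *; omega
  · refine ⟨33, ix ((x, y) + ((4 : ℕ) : ℤ) • (1, 1)), Or.inr (Or.inr (Or.inl rfl)), ix_lt h4, ?_, Or.inl ?_⟩
    all_goals unfold Inb at h0 h4; unfold ix
    all_goals simp only [Prod.smul_mk, smul_eq_mul, Prod.mk_add_mk, mul_one, mul_zero, mul_neg] at h0 h4 ⊢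
    · push_cast at *; omega
    · intro k hk; push_cast at *; omega
  · refine ⟨31, ix ((x, y) + ((0 : ℕ) : ℤ) • (1, -1)), Or.inr (Or.inr (Or.inr rfl)), ix_lt h0, ?_, Or.inr ?_⟩
    all_goals unfold Inb at h0 h4; unfold ix
    all_goals simp only [Prod.smul_mk, smul_eq_mul, Prod.mk_add_mk, mul_one, mul_zero, mul_neg] at h0 h4 ⊢
    · push_cast at *; omega
    · intro k hk; push_cast at *; omega

theorem Rep.digc {X : ℕ} {A B : Finset Cell} (h : Rep X A B) {c : Cell} (hc : Inb c) (hA : c ∉ A) :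
    dg X (ix c) = 4 + if c ∈ B then 1 else 0 := by
  rw [h.dig _ (ix_lt hc), cl_ix hc, if_neg hA]
  split_ifs <;> rfl

/-- The window sums. -/
theorem win_sum {X : ℕ} {A B : Finset Cell} (h : Rep X A B) {a d : Cell} (hd : IsDir d)
    (hin : ∀ k : ℕ, k < 5 → Inb (a + (k : ℤ) • d)) (hA : Avo A a d) :
    ∃ δ e, IsDel δ ∧ e < 1024 ∧ 4 * δ ≤ e ∧ dg (X * pol δ) e = 20 + cnt B a d ∧
      ∀ k : ℕ, k < 5 → ∃ k' < 5, ix (a + (k : ℤ) • d) + k' * δ = e := by
  obtain ⟨δ, e, hδ, he, h4, hk⟩ := win_idx hd hin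
  refine ⟨δ, e, hδ, he, h4, ?_, ?_⟩
  · unfold pol
    rw [dg_win (B := 5) (by norm_num) h.le5, if_pos (by omega), if_pos (by omega), if_pos (by omega), if_pos h4, cnt_sum]
    have g : ∀ k : ℕ, k < 5 → dg X (ix (a + (k : ℤ) • d)) = 4 + if a + (k : ℤ) • d ∈ B then 1 else 0 :=
      fun k hk => h.digc (hin k hk) (hA k hk)
    rcases hk with hk | hk
    · have i0 := hk 0 (by norm_num)
      have i1 := hk 1 (by norm_num)
      have i2 := hk 2 (by norm_num)
      have i3 := hk 3 (by norm_num)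
      have i4 := hk 4 (by norm_num)
      rw [show e = ix (a + ((4 : ℕ) : ℤ) • d) by omega,
        show ix (a + ((4 : ℕ) : ℤ) • d) - δ = ix (a + ((3 : ℕ) : ℤ) • d) by omega,
        show ix (a + ((4 : ℕ) : ℤ) • d) - 2 * δ = ix (a + ((2 : ℕ) : ℤ) • d) by omega,
        show ix (a + ((4 : ℕ) : ℤ) • d) - 3 * δ = ix (a + ((1 : ℕ) : ℤ) • d) by omega,
        show ix (a + ((4 : ℕ) : ℤ) • d) - 4 * δ = ix (a + ((0 : ℕ) : ℤ) • d) by omega,
        g 0 (by norm_num), g 1 (by norm_num), g 2 (by norm_num), g 3 (by norm_num), g 4 (by norm_num)]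
      ring
    · have i0 := hk 0 (by norm_num)
      have i1 := hk 1 (by norm_num)
      have i2 := hk 2 (by norm_num)
      have i3 := hk 3 (by norm_num)
      have i4 := hk 4 (by norm_num)
      rw [show e = ix (a + ((0 : ℕ) : ℤ) • d) by omega,
        show ix (a + ((0 : ℕ) : ℤ) • d) - δ = ix (a + ((1 : ℕ) : ℤ) • d) by omega,
        show ix (a + ((0 : ℕ) : ℤ) • d) - 2 * δ = ix (a + ((2 : ℕ) : ℤ) • d) by omega,
        show ix (a + ((0 : ℕ) : ℤ) • d) - 3 * δ = ix (a + ((3 : ℕ) : ℤ) • d) by omega,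
        show ix (a + ((0 : ℕ) : ℤ) • d) - 4 * δ = ix (a + ((4 : ℕ) : ℤ) • d) by omega,
        g 0 (by norm_num), g 1 (by norm_num), g 2 (by norm_num), g 3 (by norm_num), g 4 (by norm_num)]
      ring
  · intro k hk5
    rcases hk with hk | hk
    · exact ⟨4 - k, by omega, hk k hk5⟩
    · exact ⟨k, hk5, hk k hk5⟩

theorem dg_XP {X : ℕ} (hX : ∀ i, dg X i ≤ 5) (δ i : ℕ) : dg (X * pol δ) i ≤ 25 := by
  unfold pol
  rw [dg_win (B := 5) (by norm_num) hX]
  have := hX i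
  have := hX (i - δ)
  have := hX (i - 2 * δ)
  have := hX (i - 3 * δ)
  have := hX (i - 4 * δ)
  split_ifs <;> omega

theorem dg_XPc {X t : ℕ} (hX : ∀ i, dg X i ≤ 5) (ht : t ≤ 31) (δ i : ℕ) :
    dg (X * pol δ + t * rp 1024) i = dg (X * pol δ) i + if i < 1024 then t else 0 := by
  rw [dg_add, dg_mul_rp (by omega)]
  intro i
  have := dg_XP hX δ i
  rw [dg_mul_rp (by omega)]
  split_ifs <;> omega

theorem and32 (v : ℕ) (hv : v < 64) : v &&& 32 = if 32 ≤ v then 32 else 0 := by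
  revert v; decide +kernel

theorem IsDel.pol {δ : ℕ} (h : IsDel δ) : pol δ = pH ∨ pol δ = pV ∨ pol δ = pD ∨ pol δ = pA := by
  rcases h with rfl | rfl | rfl | rfl
  · left; rw [pH_eq]; rfl
  · right; left; rw [pV_eq]; rfl
  · right; right; left; rw [pD_eq]; rfl
  · right; right; right; rw [pA_eq]; rfl

theorem saf_spec {X : ℕ} {A B : Finset Cell} (h : Rep X A B) (hs : saf X = true) {a d : Cell} (hd : IsDir d)
    (hA : Avo A a d) : cnt B a d ≤ 3 := by
  by_contra hc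
  push Not at hc
  obtain ⟨k0, hk0, hk0B⟩ := cnt_pos (by omega : 1 ≤ cnt B a d)
  have hin : ∀ k : ℕ, k < 5 → Inb (a + (k : ℤ) • d) := win_inb hd hk0 (h.inB _ hk0B)
  obtain ⟨δ, e, hδ, he, -, hsum, -⟩ := win_sum h hd hin hA
  have key : dg ((X * pol δ + c8) &&& m32) e = 32 := by
    rw [dg_land, c8_eq, m32_eq, dg_XPc h.le5 (by norm_num), dg_mul_rp (by norm_num), if_pos he, if_pos he, hsum,
      and32 _ (by
        have := dg_XP h.le5 δ e
        omega), if_pos (by omega)]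
  have hz : (X * pol δ + c8) &&& m32 = 0 := by
    have h1 := Nat.eq_of_beq_eq_true hs
    change (((X * pH + c8) ||| (X * pV + c8)) ||| ((X * pD + c8) ||| (X * pA + c8))) &&& m32 = 0 at h1
    have h2 : ∀ Y Z : ℕ, (Y ||| Z) &&& m32 = 0 → Y &&& m32 = 0 ∧ Z &&& m32 = 0 := by
      intro Y Z h
      rw [Nat.and_or_distrib_right, Nat.or_eq_zero_iff] at h
      exact h
    obtain ⟨h3, h4⟩ := h2 _ _ h1
    obtain ⟨h5, h6⟩ := h2 _ _ h3
    obtain ⟨h7, h8⟩ := h2 _ _ h4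
    rcases hδ.pol with hp | hp | hp | hp <;> rw [hp]
    exacts [h5, h6, h7, h8]
  rw [hz, dg_zero] at key
  omega

theorem two6 (n : ℕ) : (2 : ℕ) ^ (6 * n) = 64 ^ n := by rw [pow_mul]; norm_num

/-- flags of one direction -/
def flg (X c p : ℕ) : ℕ := ((X * p + c) &&& m32) / 2 ^ 5

theorem flg_spec {X t : ℕ} (hX : ∀ i, dg X i ≤ 5) (ht : t ≤ 31) (δ i : ℕ) :
    dg (flg X (t * rp 1024) (pol δ)) i = if i < 1024 ∧ 32 ≤ dg (X * pol δ) i + t then 1 else 0 := by
  have h : ∀ i, dg ((X * pol δ + t * rp 1024) &&& m32) i =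
      if i < 1024 ∧ 32 ≤ dg (X * pol δ) i + t then 32 else 0 := by
    intro i
    rw [dg_land, m32_eq, dg_XPc hX ht, dg_mul_rp (by norm_num)]
    have := dg_XP hX δ i
    by_cases hi : i < 1024
    · simp only [hi, if_true, true_and]
      exact and32 _ (by omega)
    · simp [hi]
  unfold flg
  rw [dg_shr5, h]
  · by_cases hc : i < 1024 ∧ 32 ≤ dg (X * pol δ) i + t
    · rw [if_pos hc, if_pos rfl, if_pos hc]
    · rw [if_neg hc, if_neg hc, if_neg (by norm_num)]
  · intro i; rw [h]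
    by_cases hc : i < 1024 ∧ 32 ≤ dg (X * pol δ) i + t
    · rw [if_pos hc]; right; rfl
    · rw [if_neg hc]; left; rfl

theorem flg_le {X t : ℕ} (hX : ∀ i, dg X i ≤ 5) (ht : t ≤ 31) (δ i : ℕ) :
    dg (flg X (t * rp 1024) (pol δ)) i ≤ 1 := by
  rw [flg_spec hX ht]; split_ifs <;> omega

/-- `dir1` as a function of `δ`. -/
def dr (X c δ : ℕ) : ℕ := (flg X c (pol δ) * pol δ) / 64 ^ (4 * δ)

theorem dr_le {X t : ℕ} (hX : ∀ i, dg X i ≤ 5) (ht : t ≤ 31) (δ i : ℕ) : dg (dr X (t * rp 1024) δ) i ≤ 5 := by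
  unfold dr
  rw [dg_shr]
  have h := flg_le hX ht δ
  unfold pol at h ⊢
  rw [dg_win (B := 1) (by norm_num) h]
  have := h (i + 4 * δ)
  have := h (i + 4 * δ - δ)
  have := h (i + 4 * δ - 2 * δ)
  have := h (i + 4 * δ - 3 * δ)
  have := h (i + 4 * δ - 4 * δ)
  split_ifs <;> omega

theorem dr_pos {X t : ℕ} (hX : ∀ i, dg X i ≤ 5) (ht : t ≤ 31) {δ i e k : ℕ} (hk : k < 5) (he : e < 1024)
    (h32 : 32 ≤ dg (X * pol δ) e + t) (hi : i + k * δ = e) : 1 ≤ dg (dr X (t * rp 1024) δ) i := by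
  have hf : dg (flg X (t * rp 1024) (pol δ)) e = 1 := by rw [flg_spec hX ht, if_pos ⟨he, h32⟩]
  unfold dr
  rw [dg_shr]
  have h := flg_le hX ht δ
  unfold pol at h hf ⊢
  rw [dg_win (B := 1) (by norm_num) h, if_pos (by omega), if_pos (by omega), if_pos (by omega), if_pos (by omega)]
  interval_cases k
  · rw [show i + 4 * δ - 4 * δ = e by omega, hf]; omega
  · rw [show i + 4 * δ - 3 * δ = e by omega, hf]; omega
  · rw [show i + 4 * δ - 2 * δ = e by omega, hf]; omega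
  · rw [show i + 4 * δ - δ = e by omega, hf]; omega
  · rw [show i + 4 * δ = e by omega, hf]; omega

theorem cel_eq (X t : ℕ) : cel X (t * rp 1024) =
    ((31 * rp 1024 + ((dr X (t * rp 1024) 1 + dr X (t * rp 1024) 32) + (dr X (t * rp 1024) 33 + dr X (t * rp 1024) 31))) &&& m32) / 2 ^ 5 := by
  have h1 : dir1 X (t * rp 1024) pH (nat_lit 24) = dr X (t * rp 1024) 1 := by
    rw [pH_eq]; unfold dr flg pol
    change ((((X * _ + _) &&& m32) >>> 5) * _) >>> 24 = _
    rw [Nat.shiftRight_eq_div_pow, Nat.shiftRight_eq_div_pow]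
    congr 1
  have h2 : dir1 X (t * rp 1024) pV (nat_lit 768) = dr X (t * rp 1024) 32 := by
    rw [pV_eq]; unfold dr flg pol
    change ((((X * _ + _) &&& m32) >>> 5) * _) >>> 768 = _
    rw [Nat.shiftRight_eq_div_pow, Nat.shiftRight_eq_div_pow, show 768 = 6 * (4 * 32) by norm_num, two6]
  have h3 : dir1 X (t * rp 1024) pD (nat_lit 792) = dr X (t * rp 1024) 33 := by
    rw [pD_eq]; unfold dr flg pol
    change ((((X * _ + _) &&& m32) >>> 5) * _) >>> 792 = _
    rw [Nat.shiftRight_eq_div_pow, Nat.shiftRight_eq_div_pow, show 792 = 6 * (4 * 33) by norm_num, two6]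
  have h4 : dir1 X (t * rp 1024) pA (nat_lit 744) = dr X (t * rp 1024) 31 := by
    rw [pA_eq]; unfold dr flg pol
    change ((((X * _ + _) &&& m32) >>> 5) * _) >>> 744 = _
    rw [Nat.shiftRight_eq_div_pow, Nat.shiftRight_eq_div_pow, show 744 = 6 * (4 * 31) by norm_num, two6]
  unfold cel
  rw [h1, h2, h3, h4, c31_eq]
  change ((_ + ((_ + _) + (_ + _))) &&& m32) >>> 5 = _
  rw [Nat.shiftRight_eq_div_pow]

theorem cel_spec {X t : ℕ} (hX : ∀ i, dg X i ≤ 5) (ht : t ≤ 31) {i : ℕ} (hi : i < 1024) {δ : ℕ} (hδ : IsDel δ)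
    (h1 : 1 ≤ dg (dr X (t * rp 1024) δ) i) : (cel X (t * rp 1024)).testBit (6 * i) = true := by
  have l1 := dr_le hX ht 1
  have l2 := dr_le hX ht 32
  have l3 := dr_le hX ht 33
  have l4 := dr_le hX ht 31
  have a1 : ∀ i, dg (dr X (t * rp 1024) 1 + dr X (t * rp 1024) 32) i = dg (dr X (t * rp 1024) 1) i + dg (dr X (t * rp 1024) 32) i :=
    fun i => dg_add (fun i => by have := l1 i; have := l2 i; omega) i
  have a2 : ∀ i, dg (dr X (t * rp 1024) 33 + dr X (t * rp 1024) 31) i = dg (dr X (t * rp 1024) 33) i + dg (dr X (t * rp 1024) 31) i :=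
    fun i => dg_add (fun i => by have := l3 i; have := l4 i; omega) i
  have a3 : ∀ i, dg ((dr X (t * rp 1024) 1 + dr X (t * rp 1024) 32) + (dr X (t * rp 1024) 33 + dr X (t * rp 1024) 31)) i =
      (dg (dr X (t * rp 1024) 1) i + dg (dr X (t * rp 1024) 32) i) + (dg (dr X (t * rp 1024) 33) i + dg (dr X (t * rp 1024) 31) i) := by
    intro i
    rw [dg_add, a1, a2]
    intro i; rw [a1, a2]
    have := l1 i; have := l2 i; have := l3 i; have := l4 i; omega
  have a4 : ∀ i, dg (31 * rp 1024 + ((dr X (t * rp 1024) 1 + dr X (t * rp 1024) 32) + (dr X (t * rp 1024) 33 + dr X (t * rp 1024) 31))) i =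
      (if i < 1024 then 31 else 0) + ((dg (dr X (t * rp 1024) 1) i + dg (dr X (t * rp 1024) 32) i) + (dg (dr X (t * rp 1024) 33) i + dg (dr X (t * rp 1024) 31) i)) := by
    intro i
    rw [dg_add, a3, dg_mul_rp (by norm_num)]
    intro i; rw [a3, dg_mul_rp (by norm_num)]
    have := l1 i; have := l2 i; have := l3 i; have := l4 i
    split_ifs <;> omega
  have a5 : ∀ i, dg ((31 * rp 1024 + ((dr X (t * rp 1024) 1 + dr X (t * rp 1024) 32) + (dr X (t * rp 1024) 33 + dr X (t * rp 1024) 31))) &&& m32) i =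
      if i < 1024 ∧ 1 ≤ (dg (dr X (t * rp 1024) 1) i + dg (dr X (t * rp 1024) 32) i) + (dg (dr X (t * rp 1024) 33) i + dg (dr X (t * rp 1024) 31) i) then 32 else 0 := by
    intro i
    rw [dg_land, a4, m32_eq, dg_mul_rp (by norm_num)]
    have := l1 i; have := l2 i; have := l3 i; have := l4 i
    by_cases hi : i < 1024
    · simp only [hi, if_true, true_and]
      rw [and32 _ (by omega)]
      split_ifs <;> omega
    · simp [hi]
  rw [cel_eq]
  have a6 := testBit_dg (((31 * rp 1024 + ((dr X (t * rp 1024) 1 + dr X (t * rp 1024) 32) + (dr X (t * rp 1024) 33 + dr X (t * rp 1024) 31))) &&& m32) / 2 ^ 5) i 0 (by norm_num)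
  rw [Nat.add_zero] at a6
  have hc : i < 1024 ∧ 1 ≤ (dg (dr X (t * rp 1024) 1) i + dg (dr X (t * rp 1024) 32) i) + (dg (dr X (t * rp 1024) 33) i + dg (dr X (t * rp 1024) 31) i) := by
    refine ⟨hi, ?_⟩
    rcases hδ with rfl | rfl | rfl | rfl <;> omega
  rw [← a6, dg_shr5 (fun i => by rw [a5]; split_ifs; exacts [Or.inr rfl, Or.inl rfl]), a5, if_pos hc]
  rfl

/-- Windows of Second demand their cells. -/
theorem cel_win {X t : ℕ} {A B : Finset Cell} (h : Rep X A B) (ht : t ≤ 11) {a d : Cell} (hd : IsDir d)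
    (hA : Avo A a d) (hb : 12 ≤ cnt B a d + t) {k : ℕ} (hk : k < 5) :
    Inb (a + (k : ℤ) • d) ∧ (cel X (t * rp 1024)).testBit (6 * ix (a + (k : ℤ) • d)) = true := by
  obtain ⟨k0, hk0, hk0B⟩ := cnt_pos (by omega : 1 ≤ cnt B a d)
  have hin : ∀ k : ℕ, k < 5 → Inb (a + (k : ℤ) • d) := win_inb hd hk0 (h.inB _ hk0B)
  obtain ⟨δ, e, hδ, he, -, hsum, hidx⟩ := win_sum h hd hin hA
  refine ⟨hin k hk, ?_⟩
  obtain ⟨k', hk', hke⟩ := hidx k hk
  exact cel_spec h.le5 (by omega) (ix_lt (hin k hk)) hδ (dr_pos h.le5 (by omega) hk' he (by omega) hke)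

end Pool.Agent.H79.Five
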