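import Pool.Agent.H79.Five.Near14
import Pool.Agent.H94.Five.FarS1
import Pool.Agent.H94.Five.MidS1

set_option autoImplicit false

/-! First wins from the empty board. -/

namespace Pool.Agent.H79.Five

theorem win0 : ∃ N, W N ∅ ∅ := fin5 near_S1 Pool.Agent.H94.Five.mid_S1 Pool.Agent.H94.Five.far_S1

end Pool.Agent.H79.Five
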